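import Pool.Agent.H682R3.Few.Main

/-! # Boolean circuits with few input-output paths -/

namespace Pool.Agent.H682R3.Few

open Finset

/-- A Boolean circuit with `m` inputs and `m` outputs. The value of a gate (a node without label) is
an arbitrary Boolean function of the values of its predecessors; in particular all circuits with
gates `∧`, `∨`, `¬` of any fan-in are allowed. A node with label `some x` carries the input number
`x`. -/
structure BCircuit (m : ℕ) where
  V : Type
  [fin : Fintype V]
  [dec : DecidableEq V]
  G : Dag V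
  label : V → Option (Fin m)
  val : (Fin m → Bool) → V → Bool
  val_input : ∀ a v x, label v = some x → val a v = a x
  val_gate : ∀ v, label v = none → ∀ a b, (∀ u, (u, v) ∈ G.E → val a u = val b u) →
    val a v = val b v
  out : Fin m → V

attribute [instance] BCircuit.fin BCircuit.dec

/-- `C` computes the function `f`. -/
def BCircuit.Computes {m : ℕ} (C : BCircuit m) (f : (Fin m → Bool) → Fin m → Bool) : Prop :=
  ∀ a i, C.val a (C.out i) = f a i

/-- the bits of `a`, continued by zeros -/
def bit {m : ℕ} (a : Fin m → Bool) (k : ℕ) : Bool := if h : k < m then a ⟨k, h⟩ else false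

/-- The Boolean product of a Toeplitz matrix and a vector, as a length-preserving function: with
`n = m / 3`, the output `i < n` is `⋁_{j < n} a_j ∧ a_{2 n + i - j}`, the other outputs are `0`. -/
def toeplitz (m : ℕ) (a : Fin m → Bool) (i : Fin m) : Bool :=
  decide ((i : ℕ) < m / 3 ∧
    ∃ j < m / 3, bit a j = true ∧ bit a (2 * (m / 3) + (i : ℕ) - j) = true)

/-- the embedding of the first `m / 3` indices -/
def emb (m : ℕ) (j : Fin (m / 3)) : Fin m := ⟨j, lt_of_lt_of_le j.2 (Nat.div_le_self m 3)⟩

/-- The nodes carrying one of the first `m / 3` inputs, with the number of the input. -/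
def labx {m : ℕ} (C : BCircuit m) (v : C.V) : Option (Fin (m / 3)) :=
  (C.label v).bind fun x => if h : (x : ℕ) < m / 3 then some ⟨x, h⟩ else none

theorem labx_eq {m : ℕ} (C : BCircuit m) (v : C.V) (j : Fin (m / 3)) :
    labx C v = some j ↔ C.label v = some (emb m j) := by
  unfold labx
  rcases h : C.label v with _ | x
  · simp
  · simp only [Option.bind_some, Option.some.injEq]
    by_cases hx : (x : ℕ) < m / 3
    · rw [dif_pos hx]
      simp only [Option.some.injEq, Fin.ext_iff, emb]
    · rw [dif_neg hx]
      simp only [reduceCtorEq, false_iff]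
      intro h'
      apply hx
      rw [h']
      exact j.2

section sep

variable {m : ℕ} (C : BCircuit m)

/-- If `v` meets all paths from `x_j` and `x_j'` to `w` then the value at `v` determines the value
at `w`, the other inputs being fixed. -/
theorem val_eq (T : Finset C.V) (j j' : Fin (m / 3)) (a b : Fin m → Bool)
    (hab : ∀ x, x ≠ emb m j → x ≠ emb m j' → a x = b x) (hT : ∀ v ∈ T, C.val a v = C.val b v) :
    ∀ w, C.G.cnt T (start (labx C) j) w = 0 → C.G.cnt T (start (labx C) j') w = 0 →
      C.val a w = C.val b w := by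
  have main : ∀ N : ℕ, ∀ w, C.G.rank w < N → C.G.cnt T (start (labx C) j) w = 0 →
      C.G.cnt T (start (labx C) j') w = 0 → C.val a w = C.val b w := by
    intro N
    induction N with
    | zero => intro v hv; exact absurd hv (Nat.not_lt_zero _)
    | succ N ih =>
      intro w hw h1 h2
      by_cases hwT : w ∈ T
      · exact hT w hwT
      · rw [C.G.cnt_not_mem hwT, Nat.add_eq_zero_iff] at h1 h2
        rcases hl : C.label w with _ | x
        · refine C.val_gate w hl a b fun u hu => ih u ?_ ?_ ?_
          · have := C.G.acyclic u w hu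
            omega
          · exact (sum_eq_zero_iff.mp h1.2) u (by simpa using hu)
          · exact (sum_eq_zero_iff.mp h2.2) u (by simpa using hu)
        · rw [C.val_input a w x hl, C.val_input b w x hl]
          refine hab x ?_ ?_
          · rintro rfl
            have := (labx_eq C w j).mpr hl
            simp [start, this] at h1
          · rintro rfl
            have := (labx_eq C w j').mpr hl
            simp [start, this] at h2
  exact fun w => main _ w (Nat.lt_succ_self _)

/-- the assignments used in the proof -/
def asg (m : ℕ) (i i' j j' : Fin (m / 3)) (s t : Bool) : Fin m → Bool := fun x =>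
  if x = emb m j then s else if x = emb m j' then t else
    decide ((x : ℕ) = 2 * (m / 3) + i - j ∨ (x : ℕ) = 2 * (m / 3) + i' - j')

theorem asg_spec (i i' j j' : Fin (m / 3)) (hi : i ≠ i') (hj : j ≠ j') (s t : Bool) :
    toeplitz m (asg m i i' j j' s t) (emb m i) = s ∧
      toeplitz m (asg m i i' j j' s t) (emb m i') = t := by
  have hi0 : (i : ℕ) ≠ i' := fun h => hi (Fin.ext h)
  have hj0 : (j : ℕ) ≠ j' := fun h => hj (Fin.ext h)
  have hi1 := i.2
  have hi2 := i'.2
  have hj1 := j.2
  have hj2 := j'.2
  have h3 : 3 * (m / 3) ≤ m := Nat.mul_div_le m 3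
  -- values of the bits
  have b1 : ∀ k : ℕ, k < m / 3 → bit (asg m i i' j j' s t) k =
      if k = j then s else if k = j' then t else false := by
    intro k hk
    have hkm : k < m := by omega
    unfold bit asg emb
    rw [dif_pos hkm]
    simp only [Fin.mk.injEq]
    by_cases e1 : k = j
    · rw [if_pos e1, if_pos e1]
    · rw [if_neg e1, if_neg e1]
      by_cases e2 : k = j'
      · rw [if_pos e2, if_pos e2]
      · rw [if_neg e2, if_neg e2]
        rw [decide_eq_false]
        omega
  have b2 : ∀ k : ℕ, m / 3 ≤ k → k < m → bit (asg m i i' j j' s t) k =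
      decide (k = 2 * (m / 3) + i - j ∨ k = 2 * (m / 3) + i' - j') := by
    intro k hk hkm
    unfold bit asg emb
    rw [dif_pos hkm]
    simp only [Fin.mk.injEq]
    rw [if_neg (by omega), if_neg (by omega)]
  constructor
  · unfold toeplitz
    have e : ((emb m i : Fin m) : ℕ) = i := rfl
    rw [e]
    cases s with
    | true =>
      rw [decide_eq_true_iff]
      refine ⟨hi1, j, hj1, ?_, ?_⟩
      · rw [b1 j hj1, if_pos rfl]
      · rw [b2 _ (by omega) (by omega), decide_eq_true_iff]
        left; rfl
    | false =>
      rw [decide_eq_false_iff_not]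
      rintro ⟨_, k, hk, h1, h2⟩
      rw [b1 k hk] at h1
      by_cases e1 : k = j
      · rw [if_pos e1] at h1; exact absurd h1 (by simp)
      · rw [if_neg e1] at h1
        by_cases e2 : k = j'
        · rw [b2 _ (by omega) (by omega), decide_eq_true_iff] at h2
          omega
        · rw [if_neg e2] at h1; exact absurd h1 (by simp)
  · unfold toeplitz
    have e : ((emb m i' : Fin m) : ℕ) = i' := rfl
    rw [e]
    cases t with
    | true =>
      rw [decide_eq_true_iff]
      refine ⟨hi2, j', hj2, ?_, ?_⟩
      · rw [b1 j' hj2, if_neg (Ne.symm hj0), if_pos rfl]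
      · rw [b2 _ (by omega) (by omega), decide_eq_true_iff]
        right; rfl
    | false =>
      rw [decide_eq_false_iff_not]
      rintro ⟨_, k, hk, h1, h2⟩
      rw [b1 k hk] at h1
      by_cases e1 : k = j
      · rw [b2 _ (by omega) (by omega), decide_eq_true_iff] at h2
        omega
      · rw [if_neg e1] at h1
        by_cases e2 : k = j'
        · rw [if_pos e2] at h1; exact absurd h1 (by simp)
        · rw [if_neg e2] at h1; exact absurd h1 (by simp)

theorem asg_agree (i i' j j' : Fin (m / 3)) (s t s' t' : Bool) (x : Fin m) (h1 : x ≠ emb m j)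
    (h2 : x ≠ emb m j') : asg m i i' j j' s t x = asg m i i' j j' s' t' x := by
  unfold asg
  rw [if_neg h1, if_neg h2, if_neg h1, if_neg h2]

theorem bool_sep (hC : C.Computes (toeplitz m)) (v : C.V) (i i' j j' : Fin (m / 3)) (hi : i ≠ i')
    (hj : j ≠ j') :
    ¬ (C.G.cnt {v} (start (labx C) j) (C.out (emb m i)) = 0 ∧
      C.G.cnt {v} (start (labx C) j') (C.out (emb m i)) = 0 ∧
      C.G.cnt {v} (start (labx C) j) (C.out (emb m i')) = 0 ∧
      C.G.cnt {v} (start (labx C) j') (C.out (emb m i')) = 0) := by
  rintro ⟨h1, h2, h3, h4⟩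
  have key : ∀ s t s' t' : Bool, C.val (asg m i i' j j' s t) v = C.val (asg m i i' j j' s' t') v →
      s = s' ∧ t = t' := by
    intro s t s' t' hv
    have hT : ∀ u ∈ ({v} : Finset C.V),
        C.val (asg m i i' j j' s t) u = C.val (asg m i i' j j' s' t') u := by
      intro u hu
      rw [mem_singleton] at hu
      rw [hu]; exact hv
    have e1 := val_eq C {v} j j' _ _ (fun x hx hx' => asg_agree i i' j j' s t s' t' x hx hx') hT
      (C.out (emb m i)) h1 h2
    have e2 := val_eq C {v} j j' _ _ (fun x hx hx' => asg_agree i i' j j' s t s' t' x hx hx') hT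
      (C.out (emb m i')) h3 h4
    rw [hC, hC, (asg_spec i i' j j' hi hj s t).1, (asg_spec i i' j j' hi hj s' t').1] at e1
    rw [hC, hC, (asg_spec i i' j j' hi hj s t).2, (asg_spec i i' j j' hi hj s' t').2] at e2
    exact ⟨e1, e2⟩
  have h5 := key true true true false
  have h6 := key true true false false
  have h7 := key true false false false
  generalize C.val (asg m i i' j j' true true) v = p at h5 h6
  generalize C.val (asg m i i' j j' true false) v = q at h5 h7
  generalize C.val (asg m i i' j j' false false) v = r at h6 h7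
  cases p <;> cases q <;> cases r <;> simp at h5 h6 h7

theorem bool_conn (hC : C.Computes (toeplitz m)) (i j : Fin (m / 3)) :
    C.G.cnt ∅ (start (labx C) j) (C.out (emb m i)) ≠ 0 := by
  intro h
  -- the assignment with `x_j = s` and one further bit equal to one
  have h3 : 3 * (m / 3) ≤ m := Nat.mul_div_le m 3
  have hi1 := i.2
  have hj1 := j.2
  let A : Bool → Fin m → Bool := fun s x => if x = emb m j then s else
    decide ((x : ℕ) = 2 * (m / 3) + i - j)
  have hA : ∀ s, toeplitz m (A s) (emb m i) = s := by
    intro s
    have b1 : ∀ k : ℕ, k < m / 3 → bit (A s) k = if k = j then s else false := by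
      intro k hk
      have hkm : k < m := by omega
      simp only [bit, A, emb]
      rw [dif_pos hkm]
      simp only [Fin.mk.injEq]
      by_cases e1 : k = j
      · rw [if_pos e1, if_pos e1]
      · rw [if_neg e1, if_neg e1, decide_eq_false]
        omega
    have b2 : bit (A s) (2 * (m / 3) + i - j) = true := by
      have hkm : 2 * (m / 3) + (i : ℕ) - j < m := by omega
      simp only [bit, A, emb]
      rw [dif_pos hkm]
      simp only [Fin.mk.injEq]
      rw [if_neg (by omega)]
      simp
    unfold toeplitz
    have e : ((emb m i : Fin m) : ℕ) = i := rfl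
    rw [e]
    cases s with
    | true =>
      rw [decide_eq_true_iff]
      exact ⟨hi1, j, hj1, by rw [b1 j hj1, if_pos rfl], b2⟩
    | false =>
      rw [decide_eq_false_iff_not]
      rintro ⟨_, k, hk, h1, h2⟩
      rw [b1 k hk] at h1
      by_cases e1 : k = j
      · rw [if_pos e1] at h1; exact absurd h1 (by simp)
      · rw [if_neg e1] at h1; exact absurd h1 (by simp)
  have e1 := val_eq C ∅ j j (A true) (A false) (by
    intro x hx _
    simp only [A]
    rw [if_neg hx, if_neg hx]) (by simp) (C.out (emb m i)) h h
  rw [hC, hC, hA, hA] at e1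
  exact absurd e1 (by simp)

theorem bool_bound (hC : C.Computes (toeplitz m)) (δ : ℝ) (hδ : 0 < δ) (hδ2 : δ ≤ 2)
    (f : Fin (m / 3) → C.V → ℕ) (hf : ∀ j, C.G.IsCount ∅ (start (labx C) j) (f j))
    (hN : ((∑ i, ∑ j, f j (C.out (emb m i)) : ℕ) : ℝ) ≤ (2 - δ) * ((m / 3 : ℕ) : ℝ) ^ 2) :
    δ ^ 5 * ((m / 3 : ℕ) : ℝ) ^ 2 / 20000 ≤ Fintype.card C.V + C.G.E.card := by
  have hfc : ∀ j, f j = C.G.cnt ∅ (start (labx C) j) := fun j =>
    C.G.count_unique ∅ _ _ _ (hf j) (C.G.cnt_eq ∅ _)
  refine size_bound C.G (labx C) (fun i => C.out (emb m i))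
    (fun v i i' j j' hi hj => bool_sep C hC v i i' j j' hi hj)
    (fun i j => bool_conn C hC i j) δ hδ hδ2 ?_
  refine le_trans (le_of_eq ?_) hN
  unfold NN
  simp only [hfc]

end sep

end Pool.Agent.H682R3.Few
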