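import Pool.Agent.H682R3.Few.Linear

/-! # Linear circuits have many gates with many inputs and many outputs -/

namespace Pool.Agent.H682R3.Few

open Finset H633LC

/-- dense bipartite graphs contain `s × s` rectangles -/
theorem rect {n : ℕ} (D : Finset (Fin n × Fin n)) (hD : n ^ 2 ≤ 2 * D.card) (s : ℕ) (hs : 1 ≤ s)
    (hn : 8 * s * 2 ^ (8 * s) ≤ n) :
    ∃ I J : Finset (Fin n), I.card = s ∧ J.card = s ∧ ∀ i ∈ I, ∀ j ∈ J, (i, j) ∈ D := by
  classical
  set d : Fin n → ℕ := fun i => (univ.filter fun j => (i, j) ∈ D).card with hd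
  have hdn : ∀ i, d i ≤ n := fun i => by
    have := card_le_univ (univ.filter fun j => (i, j) ∈ D)
    simpa using this
  have hsum : ∑ i, d i = D.card := by
    simp only [hd, card_filter]
    rw [← Fintype.sum_prod_type' (f := fun i j => if (i, j) ∈ D then 1 else 0), ← card_filter]
    congr 1
    ext p
    simp
  have h1 : 1 ≤ 2 ^ (8 * s) := Nat.one_le_two_pow
  have hs8 : 8 * s ≤ n := le_trans (Nat.le_mul_of_pos_right _ (by omega)) hn
  have hs256 : 8 * s * 256 ≤ n := by
    have : 2 ^ 8 ≤ 2 ^ (8 * s) := Nat.pow_le_pow_right (by norm_num) (by omega)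
    exact le_trans (Nat.mul_le_mul_left _ (by simpa using this)) hn
  set H := univ.filter (fun i => n ≤ 4 * d i) with hH
  have hHc : 24 * s ≤ H.card * 3 := by
    have h2 : 4 * ∑ i, d i ≤ 4 * (n * H.card) + n * n := by
      rw [mul_sum]
      have h3 : ∀ i, 4 * d i ≤ (if i ∈ H then 4 * n else 0) + n := by
        intro i
        split_ifs with hi
        · have := hdn i; omega
        · rw [hH, mem_filter] at hi
          push Not at hi
          have := hi (mem_univ _)
          omega
      refine (sum_le_sum fun i _ => h3 i).trans ?_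
      rw [sum_add_distrib, ← sum_filter, sum_const, sum_const, card_univ, Fintype.card_fin]
      have h4 : univ.filter (fun i => i ∈ H) = H := by ext; simp
      rw [h4]
      simp only [smul_eq_mul]
      nlinarith
    rw [hsum] at h2
    have h5 : n * n ≤ n * (4 * H.card) := by nlinarith
    have hn0 : 0 < n := by omega
    have h6 : n ≤ 4 * H.card := Nat.le_of_mul_le_mul_left h5 hn0
    omega
  obtain ⟨A, hAH, hAc⟩ := exists_subset_card_eq (show 8 * s ≤ H.card by omega)
  set N : Fin n → Finset (Fin n) := fun j => A.filter (fun i => (i, j) ∈ D) with hN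
  have hNsum : ∑ j, (N j).card = ∑ i ∈ A, d i := by
    simp only [hN, hd, card_filter]
    rw [sum_comm]
  have hNge : 2 * s * n ≤ ∑ j, (N j).card := by
    rw [hNsum]
    have h2 : 8 * s * n ≤ ∑ i ∈ A, 4 * d i := by
      calc 8 * s * n = ∑ _i ∈ A, n := by rw [sum_const, hAc, smul_eq_mul]
        _ ≤ _ := sum_le_sum fun i hi => (mem_filter.mp (hAH hi)).2
    rw [← mul_sum] at h2
    linarith
  set Y := univ.filter (fun j => s ≤ (N j).card) with hY
  have hYc : n ≤ 8 * Y.card := by
    have h2 : ∑ j, (N j).card ≤ 8 * s * Y.card + s * n := by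
      have h3 : ∀ j, (N j).card ≤ (if j ∈ Y then 8 * s else 0) + s := by
        intro j
        split_ifs with hj
        · have : (N j).card ≤ A.card := card_le_card (filter_subset _ _)
          omega
        · rw [hY, mem_filter] at hj
          push Not at hj
          have := hj (mem_univ _)
          omega
      refine (sum_le_sum fun j _ => h3 j).trans ?_
      rw [sum_add_distrib, ← sum_filter, sum_const, sum_const, card_univ, Fintype.card_fin]
      have h4 : univ.filter (fun j => j ∈ Y) = Y := by ext; simp
      rw [h4]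
      simp only [smul_eq_mul]
      nlinarith
    have h5 : s * n ≤ s * (8 * Y.card) := by nlinarith
    exact Nat.le_of_mul_le_mul_left h5 (by omega)
  have hpig : (A.powerset).card * (s - 1) < Y.card := by
    rw [card_powerset, hAc]
    have h2 : 2 ^ (8 * s) * (s - 1) < 2 ^ (8 * s) * s := Nat.mul_lt_mul_of_pos_left (by omega) (by omega)
    have h3 : 8 * (2 ^ (8 * s) * s) ≤ 8 * Y.card := by
      calc 8 * (2 ^ (8 * s) * s) = 8 * s * 2 ^ (8 * s) := by ring
        _ ≤ n := hn
        _ ≤ _ := hYc
    omega
  obtain ⟨B, hB, hBc⟩ := exists_lt_card_fiber_of_mul_lt_card_of_maps_to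
    (f := N) (fun j _ => mem_powerset.mpr (filter_subset _ _)) hpig
  have hfib : s ≤ (Y.filter fun j => N j = B).card := by omega
  have hBs : s ≤ B.card := by
    have : (Y.filter fun j => N j = B).Nonempty := by
      rw [← card_pos]; omega
    obtain ⟨j, hj⟩ := this
    rw [mem_filter] at hj
    rw [← hj.2]
    exact (mem_filter.mp hj.1).2
  obtain ⟨I, hI, hIc⟩ := exists_subset_card_eq hBs
  obtain ⟨J, hJ, hJc⟩ := exists_subset_card_eq hfib
  refine ⟨I, J, hIc, hJc, fun i hi j hj => ?_⟩
  have h2 := (mem_filter.mp (hJ hj)).2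
  have h3 : i ∈ N j := by rw [h2]; exact hI hi
  exact (mem_filter.mp h3).2

section lin

variable {F : Type} [Field F] {n : ℕ} (C : LinCircuit F n n)

theorem form_split' (T : Finset C.V) (g : C.V → Fin n → F)
    (hg : ∀ w j, g w j = if w ∈ T then 0 else
      (if C.label w = some j then 1 else 0) +
        ∑ u ∈ univ.filter (fun u => (u, w) ∈ C.E), C.wt u w * g u j) :
    ∀ w, ∃ c : C.V → F, ∀ j, C.form w j = g w j + ∑ v ∈ T, c v * C.form v j := by
  have main : ∀ N : ℕ, ∀ w, C.rank w < N →
      ∃ c : C.V → F, ∀ j, C.form w j = g w j + ∑ v ∈ T, c v * C.form v j := by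
    intro N
    induction N with
    | zero => intro v hv; exact absurd hv (Nat.not_lt_zero _)
    | succ N ih =>
      intro w hw
      by_cases hwT : w ∈ T
      · refine ⟨Pi.single w 1, fun j => ?_⟩
        rw [hg w j, if_pos hwT, zero_add, sum_eq_single w]
        · simp
        · intro b _ hb
          rw [Pi.single_eq_of_ne hb, zero_mul]
        · intro h; exact absurd hwT h
      · have h1 : ∀ u, ∃ c : C.V → F, (u, w) ∈ C.E →
            ∀ j, C.form u j = g u j + ∑ v ∈ T, c v * C.form v j := by
          intro u
          by_cases hu : (u, w) ∈ C.E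
          · have h2 := C.acyclic u w hu
            obtain ⟨c, hc⟩ := ih u (by omega)
            exact ⟨c, fun _ => hc⟩
          · exact ⟨0, fun h => absurd h hu⟩
        choose c hc using h1
        refine ⟨fun v => ∑ u ∈ univ.filter (fun u => (u, w) ∈ C.E), C.wt u w * c u v, fun j => ?_⟩
        have h3 : ∑ v ∈ T, (∑ u ∈ univ.filter (fun u => (u, w) ∈ C.E), C.wt u w * c u v) *
            C.form v j = ∑ u ∈ univ.filter (fun u => (u, w) ∈ C.E),
              C.wt u w * ∑ v ∈ T, c u v * C.form v j := by
          simp only [sum_mul, mul_sum]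
          rw [sum_comm]
          exact sum_congr rfl fun u _ => sum_congr rfl fun v _ => by ring
        rw [form_sol C w j, hg w j, if_neg (notMem_empty w), if_neg hwT, h3,
          add_assoc, ← sum_add_distrib]
        congr 1
        refine sum_congr rfl fun u hu => ?_
        rw [hc u (by simpa using hu) j]
        ring
  exact fun w => main _ w (Nat.lt_succ_self _)

/-- A set of fewer than `s` nodes does not separate `s` variables from `s` outputs. -/
theorem lin_cut (A : Fin n → Fin n → F) (hC : C.Computes A)
    (hA : ∀ (k : ℕ) (p q : Fin k → Fin n), Function.Injective p → Function.Injective q →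
      Matrix.det (Matrix.of fun a b => A (p a) (q b)) ≠ 0)
    (T : Finset C.V) (I J : Finset (Fin n)) (hIJ : I.card = J.card) (hT : T.card < I.card)
    (h : ∀ i ∈ I, ∀ j ∈ J, (dag C).cnt T (start C.label j) (C.out i) = 0) : False := by
  classical
  obtain ⟨g, hg⟩ := LC.exists_sol C T C.wt
  have hg0 : ∀ i ∈ I, ∀ j ∈ J, g (C.out i) j = 0 := fun i hi j hj =>
    sol_support C T g hg j _ (h i hi j hj)
  choose c hc using form_split' C T g hg
  let p : Fin I.card → Fin n := fun a => (I.equivFin.symm a : Fin n)
  let q : Fin I.card → Fin n := fun a => (J.equivFin.symm (Fin.cast hIJ a) : Fin n)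
  have hp : Function.Injective p := fun a b hab => by
    have := Subtype.ext hab
    exact I.equivFin.symm.injective this
  have hq : Function.Injective q := fun a b hab => by
    have := Subtype.ext hab
    exact Fin.cast_injective hIJ (J.equivFin.symm.injective this)
  have hdet := hA I.card p q hp hq
  set M : Matrix (Fin I.card) (Fin I.card) F := Matrix.of fun a b => A (p a) (q b) with hM
  let P : Matrix (Fin I.card) T F := Matrix.of fun a v => c (C.out (p a)) v
  let Q : Matrix T (Fin I.card) F := Matrix.of fun v b => C.form v (q b)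
  have hPQ : M = P * Q := by
    ext a b
    have h1 : g (C.out (p a)) (q b) = 0 :=
      hg0 _ (I.equivFin.symm a).2 _ (J.equivFin.symm (Fin.cast hIJ b)).2
    have h2 := hc (C.out (p a)) (q b)
    rw [hC, h1, zero_add] at h2
    rw [Matrix.mul_apply, hM]
    simp only [Matrix.of_apply, P, Q]
    rw [h2]
    exact (sum_coe_sort T (fun v => c (C.out (p a)) v * C.form v (q b))).symm
  have hr1 : M.rank = I.card := by
    have hu : IsUnit M := (Matrix.isUnit_iff_isUnit_det M).mpr (isUnit_iff_ne_zero.mpr hdet)
    rw [Matrix.rank_of_isUnit M hu, Fintype.card_fin]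
  have hr2 : M.rank ≤ T.card := by
    rw [hPQ]
    refine (Matrix.rank_mul_le_left P Q).trans ?_
    have := Matrix.rank_le_card_width P
    simpa using this
  omega

/-- The gates depending on more than `κ` variables from which more than `κ` outputs can be
reached (in the graph). -/
noncomputable def fat (κ : ℕ) : Finset C.V :=
  univ.filter fun v => κ < (RR (dag C) C.label ∅ v).card ∧ κ < (SS (dag C) C.out ∅ v).card

theorem fat_bound (A : Fin n → Fin n → F) (hC : C.Computes A)
    (hA : ∀ (k : ℕ) (p q : Fin k → Fin n), Function.Injective p → Function.Injective q →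
      Matrix.det (Matrix.of fun a b => A (p a) (q b)) ≠ 0)
    (κ : ℕ) (hκ : 1 ≤ κ) (s : ℕ) (hs : 1 ≤ s) (hn : 8 * s * 2 ^ (8 * s) ≤ n)
    (hfat : (fat C κ).card < s) : n ^ 2 ≤ 4 * κ ^ 2 * C.size := by
  classical
  by_contra hcon
  push Not at hcon
  have hA1 : ∀ i j, A i j ≠ 0 := by
    intro i j h0
    have := hA 1 (fun _ => i) (fun _ => j) (Function.injective_of_subsingleton _)
      (Function.injective_of_subsingleton _)
    rw [Matrix.det_fin_one] at this
    exact this h0
  have h1 := thin_bound (dag C) C.label C.out (fat C κ) κ (by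
    intro v hv
    rw [fat, mem_filter] at hv
    push Not at hv
    have h2 := hv (mem_univ v)
    by_cases hr : κ < (RR (dag C) C.label ∅ v).card
    · right
      refine le_trans (card_le_card ?_) (h2 hr)
      intro i hi
      rw [SS, mem_filter] at hi ⊢
      have := (dag C).cnt_anti (empty_subset (fat C κ)) (Pi.single v 1) (C.out i)
      exact ⟨mem_univ _, fun h0 => hi.2 (by omega)⟩
    · left
      refine le_trans (card_le_card ?_) (not_lt.mp hr)
      intro j hj
      rw [RR, mem_filter] at hj ⊢
      have := (dag C).cnt_anti (empty_subset (fat C κ)) (start C.label j) v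
      exact ⟨mem_univ _, fun h0 => hj.2 (by omega)⟩)
  have hV := card_ge (dag C) C.label C.out (fun i j => lin_conn C A hC hA1 i j)
  have h2 : κ * Fintype.card C.V + κ ^ 2 * (dag C).E.card + κ * n ≤ 2 * κ ^ 2 * C.size := by
    have e1 : (dag C).E.card = C.E.card := rfl
    rw [e1, LinCircuit.size]
    have e2 : κ ≤ κ ^ 2 := by nlinarith
    have e3 : κ * Fintype.card C.V ≤ κ ^ 2 * Fintype.card C.V := Nat.mul_le_mul_right _ e2
    have e4 : κ * n ≤ κ ^ 2 * Fintype.card C.V := Nat.mul_le_mul e2 hV
    nlinarith [Nat.zero_le (κ ^ 2 * C.E.card)]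
  set D : Finset (Fin n × Fin n) := univ.filter fun p =>
    (dag C).cnt (fat C κ) (start C.label p.2) (C.out p.1) = 0 with hDdef
  have h3 : D.card + (univ.filter fun p : Fin n × Fin n =>
      (dag C).cnt (fat C κ) (start C.label p.2) (C.out p.1) ≠ 0).card = n ^ 2 := by
    have := card_filter_add_card_filter_not (s := (univ : Finset (Fin n × Fin n)))
      (fun p => (dag C).cnt (fat C κ) (start C.label p.2) (C.out p.1) = 0)
    rw [card_univ, Fintype.card_prod, Fintype.card_fin, ← sq] at this
    exact this
  have h4 : n ^ 2 ≤ 2 * D.card := by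
    have : 2 * κ ^ 2 * C.size * 2 = 4 * κ ^ 2 * C.size := by ring
    omega
  obtain ⟨I, J, hI, hJ, hIJ⟩ := rect D h4 s hs hn
  exact lin_cut C A hC hA (fat C κ) I J (hI.trans hJ.symm) (by rw [hI]; exact hfat)
    (fun i hi j hj => (mem_filter.mp (hIJ i hi j hj)).2)

end lin

end Pool.Agent.H682R3.Few
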