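import Pool.Agent.H682R3.Few.Bool
import Pool.Agent.H682R3.Few.Fat

/-! # Boolean circuits have many gates with many inputs and many outputs -/

namespace Pool.Agent.H682R3.Few

open Finset

/-- the bit as an element of the field with two elements -/
def bb (b : Bool) : ZMod 2 := if b = true then 1 else 0

theorem bb_inj {b c : Bool} (h : bb b = bb c) : b = c := by
  cases b <;> cases c <;> simp_all [bb]

theorem z2 (x : ZMod 2) : x = 0 ∨ x = 1 := by
  fin_cases x
  · left; rfl
  · right; rfl

/-- Submatrices of a suitable Toeplitz matrix over the field with two elements are invertible. -/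
theorem toep_inj (n : ℕ) : ∀ s : ℕ, ∀ I J : Finset (Fin n), I.card = s → J.card = s →
    ∃ b : ℕ → Bool, ∀ x : Fin n → ZMod 2, (∀ j ∉ J, x j = 0) →
      (∀ i ∈ I, ∑ j, x j * bb (b (2 * n + i - j)) = 0) → x = 0 := by
  classical
  intro s
  induction s with
  | zero =>
    intro I J _ hJ
    refine ⟨fun _ => false, fun x hx _ => ?_⟩
    rw [card_eq_zero] at hJ
    funext j
    exact hx j (by rw [hJ]; simp)
  | succ s ih =>
    intro I J hI hJ
    have hIn : I.Nonempty := by rw [← card_pos]; omega
    have hJn : J.Nonempty := by rw [← card_pos]; omega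
    set i0 := I.max' hIn with hi0
    set j0 := J.min' hJn with hj0
    have hi0I : i0 ∈ I := max'_mem _ _
    have hj0J : j0 ∈ J := min'_mem _ _
    obtain ⟨b', hb'⟩ := ih (I.erase i0) (J.erase j0) (by rw [card_erase_of_mem hi0I]; omega)
      (by rw [card_erase_of_mem hj0J]; omega)
    -- the difference `i0 - j0` is the largest one
    have hD : ∀ i ∈ I, ∀ j ∈ J, i ≠ i0 → 2 * n + (i : ℕ) - j ≠ 2 * n + (i0 : ℕ) - j0 := by
      intro i hi j hj hne
      have h1 : i < i0 := lt_of_le_of_ne (le_max' _ _ hi) hne
      have h2 : j0 ≤ j := min'_le _ _ hj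
      have h1' : (i : ℕ) < i0 := h1
      have h2' : (j0 : ℕ) ≤ j := h2
      have := j.2
      omega
    have hD2 : ∀ j ∈ J, j ≠ j0 → 2 * n + (i0 : ℕ) - j ≠ 2 * n + (i0 : ℕ) - j0 := by
      intro j hj hne
      have h2 : j0 ≤ j := min'_le _ _ hj
      have h2' : (j0 : ℕ) ≤ j := h2
      have h3 : (j0 : ℕ) ≠ j := fun h => hne (Fin.ext h.symm)
      have := j.2
      omega
    by_cases hex : ∃ y : Fin n → ZMod 2, (∀ j ∉ J, y j = 0) ∧ y j0 = 1 ∧
        ∀ i ∈ I.erase i0, ∑ j, y j * bb (b' (2 * n + i - j)) = 0
    · obtain ⟨y, hy1, hy2, hy3⟩ := hex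
      set r : ZMod 2 := ∑ j ∈ univ.erase j0, y j * bb (b' (2 * n + i0 - j)) with hr
      set β : Bool := decide (r = 0) with hβ
      have hβr : bb β + r ≠ 0 := by
        rcases z2 r with h | h
        · rw [hβ, h]; simp [bb]
        · rw [hβ, h]; simp [bb]
      refine ⟨Function.update b' (2 * n + (i0 : ℕ) - j0) β, fun x hx hker => ?_⟩
      have hxI : ∀ i ∈ I.erase i0, ∑ j, x j * bb (b' (2 * n + i - j)) = 0 := by
        intro i hi
        rw [← hker i (mem_of_mem_erase hi)]
        refine sum_congr rfl fun j _ => ?_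
        by_cases hj : j ∈ J
        · rw [Function.update_of_ne (hD i (mem_of_mem_erase hi) j hj (ne_of_mem_erase hi))]
        · rw [hx j hj, zero_mul, zero_mul]
      rcases z2 (x j0) with h0 | h1
      · refine hb' x ?_ hxI
        intro j hj
        by_cases hjj : j = j0
        · rw [hjj]; exact h0
        · exact hx j fun h => hj (mem_erase.mpr ⟨hjj, h⟩)
      · exfalso
        have hxy : x - y = 0 := by
          refine hb' (x - y) ?_ ?_
          · intro j hj
            by_cases hjj : j = j0
            · rw [hjj, Pi.sub_apply, h1, hy2, sub_self]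
            · have : j ∉ J := fun h => hj (mem_erase.mpr ⟨hjj, h⟩)
              rw [Pi.sub_apply, hx j this, hy1 j this, sub_self]
          · intro i hi
            simp only [Pi.sub_apply, sub_mul, sum_sub_distrib]
            rw [hxI i hi, hy3 i hi, sub_self]
        have hxy' : x = y := sub_eq_zero.mp hxy
        have h2 := hker i0 hi0I
        rw [← add_sum_erase univ _ (mem_univ j0), Function.update_self, hxy', hy2, one_mul] at h2
        apply hβr
        rw [← h2, hr]
        congr 1
        refine sum_congr rfl fun j hj => ?_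
        have hjj := ne_of_mem_erase hj
        by_cases hjJ : j ∈ J
        · rw [Function.update_of_ne (hD2 j hjJ hjj)]
        · rw [hy1 j hjJ, zero_mul, zero_mul]
    · refine ⟨b', fun x hx hker => ?_⟩
      rcases z2 (x j0) with h0 | h1
      · refine hb' x ?_ fun i hi => hker i (mem_of_mem_erase hi)
        intro j hj
        by_cases hjj : j = j0
        · rw [hjj]; exact h0
        · exact hx j fun h => hj (mem_erase.mpr ⟨hjj, h⟩)
      · exact absurd ⟨x, hx, h1, fun i hi => hker i (mem_of_mem_erase hi)⟩ hex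

/-- The product of a Toeplitz matrix and a vector over the field with two elements, as a
length-preserving function: with `n = m / 3`, the output `i < n` is
`∑_{j < n} a_j a_{2 n + i - j}` modulo `2`, the other outputs are `0`. -/
def toepXor (m : ℕ) (a : Fin m → Bool) (i : Fin m) : Bool :=
  decide ((i : ℕ) < m / 3 ∧
    ∑ j ∈ range (m / 3), bb (bit a j) * bb (bit a (2 * (m / 3) + (i : ℕ) - j)) = 1)

section sep

variable {m : ℕ} (C : BCircuit m)

theorem val_eq_set (T : Finset C.V) (J : Finset (Fin (m / 3))) (a b : Fin m → Bool)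
    (hab : ∀ x, (∀ j ∈ J, x ≠ emb m j) → a x = b x) (hT : ∀ v ∈ T, C.val a v = C.val b v) :
    ∀ w, (∀ j ∈ J, C.G.cnt T (start (labx C) j) w = 0) → C.val a w = C.val b w := by
  have main : ∀ N : ℕ, ∀ w, C.G.rank w < N →
      (∀ j ∈ J, C.G.cnt T (start (labx C) j) w = 0) → C.val a w = C.val b w := by
    intro N
    induction N with
    | zero => intro v hv; exact absurd hv (Nat.not_lt_zero _)
    | succ N ih =>
      intro w hw h
      by_cases hwT : w ∈ T
      · exact hT w hwT
      · have h' : ∀ j ∈ J, start (labx C) j w = 0 ∧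
            ∑ u ∈ univ.filter (fun u => (u, w) ∈ C.G.E), C.G.cnt T (start (labx C) j) u = 0 := by
          intro j hj
          have := h j hj
          rwa [C.G.cnt_not_mem hwT, Nat.add_eq_zero_iff] at this
        rcases hl : C.label w with _ | x
        · refine C.val_gate w hl a b fun u hu => ih u ?_ fun j hj => ?_
          · have := C.G.acyclic u w hu
            omega
          · exact (sum_eq_zero_iff.mp (h' j hj).2) u (by simpa using hu)
        · rw [C.val_input a w x hl, C.val_input b w x hl]
          refine hab x fun j hj => ?_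
          rintro rfl
          have h1 := (labx_eq C w j).mpr hl
          have h2 := (h' j hj).1
          simp [start, h1] at h2
  exact fun w => main _ w (Nat.lt_succ_self _)

/-- the assignments -/
def asgX (m : ℕ) (b : ℕ → Bool) (x : Fin (m / 3) → Bool) : Fin m → Bool := fun k =>
  if h : (k : ℕ) < m / 3 then x ⟨k, h⟩ else b k

theorem asgX_spec (b : ℕ → Bool) (x : Fin (m / 3) → Bool) (i : Fin (m / 3)) :
    toepXor m (asgX m b x) (emb m i) =
      decide (∑ j, bb (x j) * bb (b (2 * (m / 3) + i - j)) = 1) := by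
  have hi := i.2
  have h3 : 3 * (m / 3) ≤ m := Nat.mul_div_le m 3
  unfold toepXor
  have e : ((emb m i : Fin m) : ℕ) = i := rfl
  rw [e]
  have h1 : ∑ j ∈ range (m / 3), bb (bit (asgX m b x) j) *
      bb (bit (asgX m b x) (2 * (m / 3) + (i : ℕ) - j)) =
      ∑ j : Fin (m / 3), bb (x j) * bb (b (2 * (m / 3) + i - j)) := by
    rw [← Fin.sum_univ_eq_sum_range (fun j => bb (bit (asgX m b x) j) *
      bb (bit (asgX m b x) (2 * (m / 3) + (i : ℕ) - j)))]
    refine sum_congr rfl fun j _ => ?_
    have hj := j.2
    congr 2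
    · unfold bit asgX
      rw [dif_pos (show (j : ℕ) < m by omega)]
      simp
    · unfold bit asgX
      rw [dif_pos (show 2 * (m / 3) + (i : ℕ) - j < m by omega)]
      rw [dif_neg (show ¬ 2 * (m / 3) + (i : ℕ) - j < m / 3 by omega)]
  rw [h1]
  simp [hi]

/-- A set of fewer than `s` nodes does not separate `s` inputs from `s` outputs. -/
theorem bool_cut (hC : C.Computes (toepXor m)) (T : Finset C.V) (I J : Finset (Fin (m / 3)))
    (hIJ : I.card = J.card) (hT : T.card < J.card)
    (h : ∀ i ∈ I, ∀ j ∈ J, C.G.cnt T (start (labx C) j) (C.out (emb m i)) = 0) : False := by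
  classical
  obtain ⟨b, hb⟩ := toep_inj (m / 3) _ I J hIJ rfl
  let ext : (J → Bool) → Fin (m / 3) → Bool := fun x j => if hj : j ∈ J then x ⟨j, hj⟩ else false
  have hcard : Fintype.card (T → Bool) < Fintype.card (J → Bool) := by
    simp only [Fintype.card_pi, Fintype.card_bool, prod_const, card_univ, Fintype.card_coe]
    exact Nat.pow_lt_pow_right (by norm_num) hT
  obtain ⟨x, y, hxy, heq⟩ := Fintype.exists_ne_map_eq_of_card_lt
    (fun x : J → Bool => fun v : T => C.val (asgX m b (ext x)) v) hcard
  have hval : ∀ i ∈ I, C.val (asgX m b (ext x)) (C.out (emb m i)) =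
      C.val (asgX m b (ext y)) (C.out (emb m i)) := by
    intro i hi
    refine val_eq_set C T J _ _ ?_ ?_ _ (h i hi)
    · intro k hk
      unfold asgX
      by_cases hkn : (k : ℕ) < m / 3
      · rw [dif_pos hkn, dif_pos hkn]
        have hkJ : (⟨k, hkn⟩ : Fin (m / 3)) ∉ J := by
          intro hkJ
          exact hk _ hkJ (Fin.ext rfl)
        simp only [ext]
        rw [dif_neg hkJ, dif_neg hkJ]
      · rw [dif_neg hkn, dif_neg hkn]
    · intro v hv
      exact congrFun heq ⟨v, hv⟩
  have hker : (fun j => bb (ext x j) - bb (ext y j)) = 0 := by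
    refine hb _ ?_ ?_
    · intro j hj
      simp only [ext]
      rw [dif_neg hj, dif_neg hj, sub_self]
    · intro i hi
      have h1 := hval i hi
      rw [hC, hC, asgX_spec, asgX_spec] at h1
      simp only [sub_mul, sum_sub_distrib]
      have h2 : (∑ j, bb (ext x j) * bb (b (2 * (m / 3) + i - j)) = 1) ↔
          (∑ j, bb (ext y j) * bb (b (2 * (m / 3) + i - j)) = 1) := by
        simpa using h1
      rcases z2 (∑ j, bb (ext x j) * bb (b (2 * (m / 3) + i - j))) with h3 | h3
      · rcases z2 (∑ j, bb (ext y j) * bb (b (2 * (m / 3) + i - j))) with h4 | h4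
        · rw [h3, h4, sub_self]
        · have := h2.mpr h4
          rw [h3] at this
          exact absurd this (by decide)
      · rw [h3, h2.mp h3, sub_self]
  apply hxy
  funext j
  have h5 := congrFun hker j.1
  simp only [ext, Pi.zero_apply] at h5
  rw [dif_pos j.2, dif_pos j.2] at h5
  exact bb_inj (sub_eq_zero.mp h5)

/-- The gates depending on more than `κ` of the first `m / 3` inputs from which more than `κ` of the
first `m / 3` outputs can be reached (in the graph). -/
noncomputable def fatB (κ : ℕ) : Finset C.V :=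
  univ.filter fun v => κ < (RR C.G (labx C) ∅ v).card ∧
    κ < (SS C.G (fun i => C.out (emb m i)) ∅ v).card

theorem fatB_bound (hC : C.Computes (toepXor m)) (κ : ℕ) (hκ : 1 ≤ κ) (s : ℕ) (hs : 1 ≤ s)
    (hn : 8 * s * 2 ^ (8 * s) ≤ m / 3) (hfat : (fatB C κ).card < s) :
    (m / 3) ^ 2 ≤ 4 * κ ^ 2 * (Fintype.card C.V + C.G.E.card) := by
  classical
  by_contra hcon
  push Not at hcon
  have hconn : ∀ i j : Fin (m / 3),
      C.G.cnt ∅ (start (labx C) j) (C.out (emb m i)) ≠ 0 := by
    intro i j h0
    refine bool_cut C hC ∅ {i} {j} (by simp) (by simp) ?_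
    intro i' hi' j' hj'
    rw [mem_singleton] at hi' hj'
    rw [hi', hj']
    exact h0
  have h1 := thin_bound C.G (labx C) (fun i => C.out (emb m i)) (fatB C κ) κ (by
    intro v hv
    rw [fatB, mem_filter] at hv
    push Not at hv
    have h2 := hv (mem_univ v)
    by_cases hr : κ < (RR C.G (labx C) ∅ v).card
    · right
      refine le_trans (card_le_card ?_) (h2 hr)
      intro i hi
      rw [SS, mem_filter] at hi ⊢
      have := C.G.cnt_anti (empty_subset (fatB C κ)) (Pi.single v 1) (C.out (emb m i))
      exact ⟨mem_univ _, fun h0 => hi.2 (by omega)⟩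
    · left
      refine le_trans (card_le_card ?_) (not_lt.mp hr)
      intro j hj
      rw [RR, mem_filter] at hj ⊢
      have := C.G.cnt_anti (empty_subset (fatB C κ)) (start (labx C) j) v
      exact ⟨mem_univ _, fun h0 => hj.2 (by omega)⟩)
  have hV := card_ge C.G (labx C) (fun i => C.out (emb m i)) hconn
  have h2 : κ * Fintype.card C.V + κ ^ 2 * C.G.E.card + κ * (m / 3) ≤
      2 * κ ^ 2 * (Fintype.card C.V + C.G.E.card) := by
    have e2 : κ ≤ κ ^ 2 := by nlinarith
    have e3 : κ * Fintype.card C.V ≤ κ ^ 2 * Fintype.card C.V := Nat.mul_le_mul_right _ e2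
    have e4 : κ * (m / 3) ≤ κ ^ 2 * Fintype.card C.V := Nat.mul_le_mul e2 hV
    nlinarith [Nat.zero_le (κ ^ 2 * C.G.E.card)]
  set D : Finset (Fin (m / 3) × Fin (m / 3)) := univ.filter fun p =>
    C.G.cnt (fatB C κ) (start (labx C) p.2) (C.out (emb m p.1)) = 0 with hDdef
  have h3 : D.card + (univ.filter fun p : Fin (m / 3) × Fin (m / 3) =>
      C.G.cnt (fatB C κ) (start (labx C) p.2) (C.out (emb m p.1)) ≠ 0).card = (m / 3) ^ 2 := by
    have := card_filter_add_card_filter_not (s := (univ : Finset (Fin (m / 3) × Fin (m / 3))))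
      (fun p => C.G.cnt (fatB C κ) (start (labx C) p.2) (C.out (emb m p.1)) = 0)
    rw [card_univ, Fintype.card_prod, Fintype.card_fin, ← sq] at this
    exact this
  have h4 : (m / 3) ^ 2 ≤ 2 * D.card := by
    have : 2 * κ ^ 2 * (Fintype.card C.V + C.G.E.card) * 2 =
      4 * κ ^ 2 * (Fintype.card C.V + C.G.E.card) := by ring
    omega
  obtain ⟨I, J, hI, hJ, hIJ⟩ := rect D h4 s hs hn
  exact bool_cut C hC (fatB C κ) I J (hI.trans hJ.symm) (by rw [hJ]; exact hfat)
    (fun i hi j hj => (mem_filter.mp (hIJ i hi j hj)).2)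

end sep

end Pool.Agent.H682R3.Few
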