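import Mathlib

/-!
# Counting directed paths in acyclic graphs; graphs with few input-output paths
-/

namespace Pool.Agent.H682R3.Few

open Finset

/-- A finite acyclic directed graph (`rank` increases along the edges). -/
structure Dag (V : Type) [Fintype V] [DecidableEq V] where
  E : Finset (V × V)
  rank : V → ℕ
  acyclic : ∀ u v, (u, v) ∈ E → rank u < rank v

namespace Dag

variable {V : Type} [Fintype V] [DecidableEq V] (G : Dag V)

/-- `f w` is the number of directed paths from starting nodes (the node `v` counted `a v` times) to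
`w` all of whose nodes are outside `T`. -/
def IsCount (T : Finset V) (a : V → ℕ) (f : V → ℕ) : Prop :=
  ∀ w, f w = if w ∈ T then 0 else a w + ∑ u ∈ univ.filter (fun u => (u, w) ∈ G.E), f u

theorem exists_count (T : Finset V) (a : V → ℕ) : ∃ f, G.IsCount T a f := by
  classical
  have main : ∀ N : ℕ, ∃ f : V → ℕ, ∀ w, G.rank w < N →
      f w = if w ∈ T then 0 else a w + ∑ u ∈ univ.filter (fun u => (u, w) ∈ G.E), f u := by
    intro N
    induction N with
    | zero => exact ⟨fun _ => 0, fun v hv => absurd hv (Nat.not_lt_zero _)⟩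
    | succ N ih =>
      obtain ⟨f, hf⟩ := ih
      refine ⟨fun v => if G.rank v < N then f v else if v ∈ T then 0 else
        a v + ∑ u ∈ univ.filter (fun u => (u, v) ∈ G.E), f u, fun v hv => ?_⟩
      have hsum : ∑ u ∈ univ.filter (fun u => (u, v) ∈ G.E),
          (if G.rank u < N then f u else if u ∈ T then 0 else
            a u + ∑ u' ∈ univ.filter (fun u' => (u', u) ∈ G.E), f u') =
          ∑ u ∈ univ.filter (fun u => (u, v) ∈ G.E), f u := by
        refine sum_congr rfl fun u hu => ?_
        have h1 := G.acyclic u v (by simpa using hu)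
        have h2 : G.rank u < N := by omega
        rw [if_pos h2]
      by_cases h : G.rank v < N
      · simp only [h, if_true]
        rw [hsum]
        exact hf v h
      · simp only [h, if_false]
        rw [hsum]
  obtain ⟨f, hf⟩ := main (univ.sup G.rank + 1)
  exact ⟨f, fun v => hf v (Nat.lt_succ_of_le (le_sup (mem_univ v)))⟩

theorem count_unique (T : Finset V) (a : V → ℕ) (f g : V → ℕ) (hf : G.IsCount T a f)
    (hg : G.IsCount T a g) : f = g := by
  have main : ∀ N : ℕ, ∀ v, G.rank v < N → f v = g v := by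
    intro N
    induction N with
    | zero => intro v hv; exact absurd hv (Nat.not_lt_zero _)
    | succ N ih =>
      intro v hv
      rw [hf, hg]
      have : ∑ u ∈ univ.filter (fun u => (u, v) ∈ G.E), f u =
          ∑ u ∈ univ.filter (fun u => (u, v) ∈ G.E), g u := by
        refine sum_congr rfl fun u hu => ?_
        have h1 := G.acyclic u v (by simpa using hu)
        rw [ih u (by omega)]
      rw [this]
  funext v
  exact main _ v (Nat.lt_succ_self _)

/-- the number of paths -/
noncomputable def cnt (T : Finset V) (a : V → ℕ) : V → ℕ := Classical.choose (G.exists_count T a)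

theorem cnt_eq (T : Finset V) (a : V → ℕ) (w : V) : G.cnt T a w =
    if w ∈ T then 0 else a w + ∑ u ∈ univ.filter (fun u => (u, w) ∈ G.E), G.cnt T a u :=
  Classical.choose_spec (G.exists_count T a) w

theorem cnt_mem {T : Finset V} {a : V → ℕ} {w : V} (h : w ∈ T) : G.cnt T a w = 0 := by
  rw [cnt_eq, if_pos h]

theorem cnt_not_mem {T : Finset V} {a : V → ℕ} {w : V} (h : w ∉ T) : G.cnt T a w =
    a w + ∑ u ∈ univ.filter (fun u => (u, w) ∈ G.E), G.cnt T a u := by
  rw [cnt_eq, if_neg h]

theorem cnt_anti {T T' : Finset V} (hT : T ⊆ T') (a : V → ℕ) (w : V) :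
    G.cnt T' a w ≤ G.cnt T a w := by
  have main : ∀ N : ℕ, ∀ v, G.rank v < N → G.cnt T' a v ≤ G.cnt T a v := by
    intro N
    induction N with
    | zero => intro v hv; exact absurd hv (Nat.not_lt_zero _)
    | succ N ih =>
      intro v hv
      by_cases h : v ∈ T'
      · rw [G.cnt_mem h]; exact Nat.zero_le _
      · rw [G.cnt_not_mem h, G.cnt_not_mem (fun h' => h (hT h'))]
        refine Nat.add_le_add_left (sum_le_sum fun u hu => ?_) _
        have h1 := G.acyclic u v (by simpa using hu)
        exact ih u (by omega)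
  exact main _ w (Nat.lt_succ_self _)

theorem cnt_single_zero (T : Finset V) (v w : V) (h : G.rank w < G.rank v) :
    G.cnt T (Pi.single v 1) w = 0 := by
  have main : ∀ N : ℕ, ∀ u, G.rank u < N → G.rank u < G.rank v → G.cnt T (Pi.single v 1) u = 0 := by
    intro N
    induction N with
    | zero => intro v hv; exact absurd hv (Nat.not_lt_zero _)
    | succ N ih =>
      intro u hu huv
      by_cases h : u ∈ T
      · exact G.cnt_mem h
      · rw [G.cnt_not_mem h]
        have hne : u ≠ v := by rintro rfl; exact lt_irrefl _ huv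
        rw [Pi.single_eq_of_ne hne, zero_add]
        refine sum_eq_zero fun x hx => ?_
        have h1 := G.acyclic x u (by simpa using hx)
        exact ih x (by omega) (by omega)
  exact main _ w (Nat.lt_succ_self _) h

theorem cnt_single_self {T : Finset V} {v : V} (h : v ∉ T) : G.cnt T (Pi.single v 1) v = 1 := by
  rw [G.cnt_not_mem h, Pi.single_eq_same]
  have : ∑ u ∈ univ.filter (fun u => (u, v) ∈ G.E), G.cnt T (Pi.single v 1) u = 0 :=
    sum_eq_zero fun u hu => G.cnt_single_zero T v u (G.acyclic u v (by simpa using hu))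
  rw [this]

/-- Splitting the paths according to whether they contain `v`. -/
theorem cnt_split {T : Finset V} {v : V} (hv : v ∉ T) (a : V → ℕ) (w : V) :
    G.cnt T a w = G.cnt (insert v T) a w + G.cnt T a v * G.cnt T (Pi.single v 1) w := by
  have main : ∀ N : ℕ, ∀ w, G.rank w < N →
      G.cnt T a w = G.cnt (insert v T) a w + G.cnt T a v * G.cnt T (Pi.single v 1) w := by
    intro N
    induction N with
    | zero => intro v hv; exact absurd hv (Nat.not_lt_zero _)
    | succ N ih =>
      intro w hw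
      by_cases h : w ∈ T
      · rw [G.cnt_mem h, G.cnt_mem (mem_insert_of_mem h), G.cnt_mem h, mul_zero, add_zero]
      · by_cases hwv : w = v
        · subst hwv
          rw [G.cnt_mem (mem_insert_self _ _), G.cnt_single_self h]
          ring
        · have h2 : w ∉ insert v T := by
            rw [mem_insert]; push Not; exact ⟨hwv, h⟩
          rw [G.cnt_not_mem (w := w) h, G.cnt_not_mem h2, G.cnt_not_mem (w := w) (a := Pi.single v 1) h,
            Pi.single_eq_of_ne hwv, zero_add, mul_sum, add_assoc, ← sum_add_distrib]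
          congr 1
          refine sum_congr rfl fun u hu => ?_
          have h1 := G.acyclic u w (by simpa using hu)
          exact ih u (by omega)
  exact main _ w (Nat.lt_succ_self _)

theorem cnt_edge {T : Finset V} {a : V → ℕ} {u w : V} (h : (u, w) ∈ G.E) (hw : w ∉ T) :
    G.cnt T a u ≤ G.cnt T a w := by
  rw [G.cnt_not_mem hw]
  refine le_trans ?_ (Nat.le_add_left _ _)
  exact single_le_sum (f := fun u => G.cnt T a u) (fun _ _ => Nat.zero_le _) (by simpa using h)

theorem cnt_edge' {T : Finset V} {u w : V} (h : (u, w) ∈ G.E) (hu : u ∉ T) (hw : w ∉ T) (x : V) :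
    G.cnt T (Pi.single w 1) x ≤ G.cnt T (Pi.single u 1) x := by
  rw [G.cnt_split hw (Pi.single u 1) x]
  have h1 : 1 ≤ G.cnt T (Pi.single u 1) w := by
    calc 1 = G.cnt T (Pi.single u 1) u := (G.cnt_single_self hu).symm
      _ ≤ _ := G.cnt_edge h hw
  calc G.cnt T (Pi.single w 1) x = 1 * G.cnt T (Pi.single w 1) x := (one_mul _).symm
    _ ≤ G.cnt T (Pi.single u 1) w * G.cnt T (Pi.single w 1) x := Nat.mul_le_mul_right _ h1
    _ ≤ _ := Nat.le_add_left _ _

end Dag

/-! ### rectangle-free sets -/

theorem kst {n : ℕ} (X : Finset (Fin n × Fin n)) (S R : Finset (Fin n)) (hX : X ⊆ S ×ˢ R)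
    (h : ∀ i i' j j', i ≠ i' → j ≠ j' →
      ¬ ((i, j) ∈ X ∧ (i, j') ∈ X ∧ (i', j) ∈ X ∧ (i', j') ∈ X)) :
    X.card ^ 2 ≤ S.card * (R.card ^ 2 + X.card) := by
  classical
  let x : Fin n → Fin n → ℕ := fun i j => if (i, j) ∈ X then 1 else 0
  have hx1 : ∀ i j, x i j * x i j = x i j := by
    intro i j; simp only [x]; split_ifs <;> rfl
  have hcard : X.card = ∑ i ∈ S, ∑ j ∈ R, x i j := by
    have e1 : ∑ i ∈ S, ∑ j ∈ R, x i j = ∑ p ∈ S ×ˢ R, x p.1 p.2 := (sum_product' S R x).symm
    have e2 : (S ×ˢ R).filter (fun p => (p.1, p.2) ∈ X) = X := by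
      ext p
      simp only [mem_filter]
      exact ⟨fun h => h.2, fun h => ⟨hX h, h⟩⟩
    rw [e1]
    simp only [x]
    rw [← card_filter, e2]
  have h1 : (∑ i ∈ S, ∑ j ∈ R, x i j) ^ 2 ≤ S.card * ∑ i ∈ S, (∑ j ∈ R, x i j) ^ 2 :=
    sq_sum_le_card_mul_sum_sq
  have h2 : ∑ i ∈ S, (∑ j ∈ R, x i j) ^ 2 = ∑ j ∈ R, ∑ j' ∈ R, ∑ i ∈ S, x i j * x i j' := by
    have : ∀ i, (∑ j ∈ R, x i j) ^ 2 = ∑ j ∈ R, ∑ j' ∈ R, x i j * x i j' := by
      intro i; rw [sq, sum_mul_sum]
    rw [sum_congr rfl fun i _ => this i, sum_comm]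
    refine sum_congr rfl fun j _ => ?_
    rw [sum_comm]
  have h3 : ∀ j ∈ R, ∑ j' ∈ R, ∑ i ∈ S, x i j * x i j' ≤ R.card + ∑ i ∈ S, x i j := by
    intro j hj
    rw [← add_sum_erase R _ hj, add_comm]
    refine Nat.add_le_add ?_ (le_of_eq (sum_congr rfl fun i _ => hx1 i j))
    calc ∑ j' ∈ R.erase j, ∑ i ∈ S, x i j * x i j' ≤ ∑ j' ∈ R.erase j, 1 := by
          refine sum_le_sum fun j' hj' => ?_
          have hne : j' ≠ j := ne_of_mem_erase hj'
          by_contra hcon
          push Not at hcon
          have h4 : ∑ i ∈ S, x i j * x i j' =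
              (S.filter fun i => (i, j) ∈ X ∧ (i, j') ∈ X).card := by
            rw [card_filter]
            refine sum_congr rfl fun i _ => ?_
            simp only [x]
            by_cases ha : (i, j) ∈ X <;> by_cases hb : (i, j') ∈ X <;> simp [ha, hb]
          rw [h4, one_lt_card] at hcon
          obtain ⟨i, hi, i', hi', hii⟩ := hcon
          rw [mem_filter] at hi hi'
          exact h i i' j j' hii hne.symm ⟨hi.2.1, hi.2.2, hi'.2.1, hi'.2.2⟩
      _ = (R.erase j).card := by simp
      _ ≤ R.card := card_le_card (erase_subset _ _)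
  have h5 : ∑ j ∈ R, ∑ j' ∈ R, ∑ i ∈ S, x i j * x i j' ≤ R.card ^ 2 + X.card := by
    refine (sum_le_sum h3).trans ?_
    rw [sum_add_distrib, sum_const, smul_eq_mul, ← sq, hcard]
    refine Nat.add_le_add_left (le_of_eq ?_) _
    exact sum_comm
  calc X.card ^ 2 = (∑ i ∈ S, ∑ j ∈ R, x i j) ^ 2 := by rw [hcard]
    _ ≤ S.card * ∑ i ∈ S, (∑ j ∈ R, x i j) ^ 2 := h1
    _ ≤ S.card * (R.card ^ 2 + X.card) := Nat.mul_le_mul_left _ (h2 ▸ h5)

end Pool.Agent.H682R3.Few
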