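import Pool.Agent.H682R3.Few.Linear

/-! # A linear-size circuit with two paths between every input and every output -/

namespace Pool.Agent.H682R3.Few

open Finset H633LC

section ex

variable (F : Type) [Field F] (n : ℕ)

/-- the nodes: `n` inputs, two middle nodes, `n` outputs -/
abbrev W (n : ℕ) : Type := (Fin n ⊕ Bool) ⊕ Fin n

/-- the edges: every input to both middle nodes, both middle nodes to every output -/
def edges (n : ℕ) : Finset (W n × W n) :=
  (univ : Finset (Fin n × Bool)).image (fun p => (Sum.inl (Sum.inl p.1), Sum.inl (Sum.inr p.2))) ∪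
    (univ : Finset (Bool × Fin n)).image (fun p => (Sum.inl (Sum.inr p.1), Sum.inr p.2))

theorem filter_mid (b : Bool) : univ.filter (fun u => (u, (Sum.inl (Sum.inr b) : W n)) ∈ edges n) =
    univ.image (fun j : Fin n => (Sum.inl (Sum.inl j) : W n)) := by
  ext u
  simp [edges]

theorem filter_out (i : Fin n) : univ.filter (fun u => (u, (Sum.inr i : W n)) ∈ edges n) =
    univ.image (fun b : Bool => (Sum.inl (Sum.inr b) : W n)) := by
  ext u
  simp only [edges, mem_filter, mem_univ, true_and, mem_union, mem_image, Prod.exists,
    Prod.mk.injEq, reduceCtorEq, and_false, exists_false, false_or, Sum.inr.injEq]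
  constructor
  · rintro ⟨b, k, h, _⟩; exact ⟨b, h⟩
  · rintro ⟨b, h⟩; exact ⟨b, i, h, rfl⟩

theorem filter_in (j : Fin n) : univ.filter (fun u => (u, (Sum.inl (Sum.inl j) : W n)) ∈ edges n) =
    ∅ := by
  ext u
  simp [edges]

/-- the labels -/
def wlabel (n : ℕ) : W n → Option (Fin n) := fun v => match v with
    | Sum.inl (Sum.inl j) => some j
    | _ => none

/-- the rank function -/
def wrank (n : ℕ) : W n → ℕ := fun v => match v with
    | Sum.inl (Sum.inl _) => 0
    | Sum.inl (Sum.inr _) => 1
    | Sum.inr _ => 2

theorem wacyclic (u v : W n) (h : (u, v) ∈ edges n) : wrank n u < wrank n v := by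
  simp only [edges, mem_union, mem_image, mem_univ, true_and, Prod.exists, Prod.mk.injEq] at h
  rcases h with ⟨j, b, rfl, rfl⟩ | ⟨b, i, rfl, rfl⟩ <;> simp [wrank]

/-- the circuit computing `1 + i j` -/
def two : LinCircuit F n n where
  V := W n
  label := wlabel n
  E := edges n
  wt := fun u v => match u, v with
    | Sum.inl (Sum.inl j), Sum.inl (Sum.inr b) => if b then ((j : ℕ) : F) else 1
    | Sum.inl (Sum.inr b), Sum.inr i => if b then ((i : ℕ) : F) else 1
    | _, _ => 0
  rank := wrank n
  acyclic := wacyclic n
  source := by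
    intro u v h
    simp only [edges, mem_union, mem_image, mem_univ, true_and, Prod.exists, Prod.mk.injEq] at h
    rcases h with ⟨j, b, rfl, rfl⟩ | ⟨b, i, rfl, rfl⟩ <;> simp [wlabel]
  form := fun v => match v with
    | Sum.inl (Sum.inl j) => Pi.single j 1
    | Sum.inl (Sum.inr b) => fun j => if b then ((j : ℕ) : F) else 1
    | Sum.inr i => fun j => 1 + ((i : ℕ) : F) * ((j : ℕ) : F)
  form_source := by
    rintro ((j | b) | i) j' h
    · simp [wlabel] at h
      simp [h]
    · simp [wlabel] at h
    · simp [wlabel] at h
  form_gate := by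
    rintro ((j | b) | i) h j'
    · simp [wlabel] at h
    · rw [filter_mid, sum_image (fun x _ y _ h => by simpa using h)]
      simp [Pi.single_apply]
    · rw [filter_out, sum_image (fun x _ y _ h => by simpa using h)]
      simp
      ring
  out := Sum.inr

/-- the graph of the circuit -/
def twoDag (n : ℕ) : Dag (W n) := ⟨edges n, wrank n, wacyclic n⟩

/-- the number of paths -/
def pathsTwo (n : ℕ) (j : Fin n) : W n → ℕ := fun v => match v with
    | Sum.inl (Sum.inl j') => if j' = j then 1 else 0
    | Sum.inl (Sum.inr _) => 1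
    | Sum.inr _ => 2

theorem twoDag_count (j : Fin n) :
    (twoDag n).IsCount ∅ (start (wlabel n) j) (pathsTwo n j) := by
  rintro ((j' | b) | i)
  · rw [if_neg (notMem_empty _)]
    have : univ.filter (fun u => (u, (Sum.inl (Sum.inl j') : W n)) ∈ (twoDag n).E) = ∅ :=
      filter_in n j'
    rw [this]
    simp [pathsTwo, start, wlabel]
  · rw [if_neg (notMem_empty _)]
    have : univ.filter (fun u => (u, (Sum.inl (Sum.inr b) : W n)) ∈ (twoDag n).E) = _ :=
      filter_mid n b
    rw [this, sum_image (fun x _ y _ h => by simpa using h)]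
    simp [pathsTwo, start, wlabel]
  · rw [if_neg (notMem_empty _)]
    have : univ.filter (fun u => (u, (Sum.inr i : W n)) ∈ (twoDag n).E) = _ :=
      filter_out n i
    rw [this, sum_image (fun x _ y _ h => by simpa using h)]
    simp [pathsTwo, start, wlabel]

theorem two_count (j : Fin n) :
    (dag (two F n)).IsCount ∅ (start (two F n).label j) (pathsTwo n j) :=
  twoDag_count n j

theorem two_size : (two F n).size ≤ 6 * n + 2 := by
  have h1 : Fintype.card (W n) = 2 * n + 2 := by
    simp [W]
    ring
  have h2 : (edges n).card ≤ 4 * n := by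
    unfold edges
    refine (card_union_le _ _).trans ?_
    have a := card_image_le (s := (univ : Finset (Fin n × Bool)))
      (f := fun p => ((Sum.inl (Sum.inl p.1) : W n), (Sum.inl (Sum.inr p.2) : W n)))
    have b := card_image_le (s := (univ : Finset (Bool × Fin n)))
      (f := fun p => ((Sum.inl (Sum.inr p.1) : W n), (Sum.inr p.2 : W n)))
    simp only [card_univ, Fintype.card_prod, Fintype.card_fin, Fintype.card_bool] at a b
    omega
  have h3 : (two F n).size = Fintype.card (W n) + (edges n).card := rfl
  omega

end ex

end Pool.Agent.H682R3.Few
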