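import Pool.Agent.H682R3.Few.Main
import Pool.Agent.H682R3.LC.Core

/-! # Linear circuits with few input-output paths -/

namespace Pool.Agent.H682R3.Few

open Finset H633LC

section lin

variable {F : Type} [Field F] {n : ℕ} (C : LinCircuit F n n)

/-- the graph of a linear circuit -/
def dag : Dag C.V := ⟨C.E, C.rank, C.acyclic⟩

theorem sol_support (T : Finset C.V) (g : C.V → Fin n → F)
    (hg : ∀ v j, g v j = if v ∈ T then 0 else (if C.label v = some j then 1 else 0) +
        ∑ u ∈ univ.filter (fun u => (u, v) ∈ C.E), C.wt u v * g u j) (j : Fin n) :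
    ∀ w, (dag C).cnt T (start C.label j) w = 0 → g w j = 0 := by
  have main : ∀ N : ℕ, ∀ w, C.rank w < N → (dag C).cnt T (start C.label j) w = 0 → g w j = 0 := by
    intro N
    induction N with
    | zero => intro v hv; exact absurd hv (Nat.not_lt_zero _)
    | succ N ih =>
      intro w hw h
      rw [hg]
      by_cases hwT : w ∈ T
      · rw [if_pos hwT]
      · rw [if_neg hwT]
        rw [(dag C).cnt_not_mem hwT, Nat.add_eq_zero_iff] at h
        have h1 : ¬ C.label w = some j := by
          intro h'
          simp [start, h'] at h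
        rw [if_neg h1, zero_add]
        refine sum_eq_zero fun u hu => ?_
        have h2 := C.acyclic u w (by simpa using hu)
        rw [ih u (by omega) ((sum_eq_zero_iff.mp h.2) u hu), mul_zero]
  exact fun w => main _ w (Nat.lt_succ_self _)

theorem form_sol (v : C.V) (j : Fin n) : C.form v j =
    if v ∈ (∅ : Finset C.V) then 0 else (if C.label v = some j then 1 else 0) +
        ∑ u ∈ univ.filter (fun u => (u, v) ∈ C.E), C.wt u v * C.form u j := by
  rw [if_neg (notMem_empty v)]
  rcases hl : C.label v with _ | x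
  · rw [C.form_gate v hl j]
    simp
  · have h0 : univ.filter (fun u => (u, v) ∈ C.E) = ∅ := by
      rw [filter_eq_empty_iff]
      intro u _ hu
      have := C.source u v hu
      rw [hl] at this
      exact absurd this (by simp)
    rw [h0, sum_empty, add_zero, C.form_source v x hl, Pi.single_apply]
    simp [eq_comm]

theorem form_split (v : C.V) (g : C.V → Fin n → F)
    (hg : ∀ w j, g w j = if w ∈ ({v} : Finset C.V) then 0 else
      (if C.label w = some j then 1 else 0) +
        ∑ u ∈ univ.filter (fun u => (u, w) ∈ C.E), C.wt u w * g u j) :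
    ∀ w, ∃ c : F, ∀ j, C.form w j = g w j + c * C.form v j := by
  have main : ∀ N : ℕ, ∀ w, C.rank w < N → ∃ c : F, ∀ j, C.form w j = g w j + c * C.form v j := by
    intro N
    induction N with
    | zero => intro v hv; exact absurd hv (Nat.not_lt_zero _)
    | succ N ih =>
      intro w hw
      by_cases hwv : w = v
      · refine ⟨1, fun j => ?_⟩
        rw [hg w j, if_pos (by simp [hwv]), hwv]
        ring
      · have h1 : ∀ u, ∃ c : F, (u, w) ∈ C.E → ∀ j, C.form u j = g u j + c * C.form v j := by
          intro u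
          by_cases hu : (u, w) ∈ C.E
          · have h2 := C.acyclic u w hu
            obtain ⟨c, hc⟩ := ih u (by omega)
            exact ⟨c, fun _ => hc⟩
          · exact ⟨0, fun h => absurd h hu⟩
        choose c hc using h1
        refine ⟨∑ u ∈ univ.filter (fun u => (u, w) ∈ C.E), C.wt u w * c u, fun j => ?_⟩
        rw [form_sol C w j, hg w j, if_neg (notMem_empty w),
          if_neg (show w ∉ ({v} : Finset C.V) by simpa using hwv), sum_mul,
          add_assoc, ← sum_add_distrib]
        congr 1
        refine sum_congr rfl fun u hu => ?_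
        rw [hc u (by simpa using hu) j]
        ring
  exact fun w => main _ w (Nat.lt_succ_self _)

theorem lin_conn (A : Fin n → Fin n → F) (hC : C.Computes A) (hA : ∀ i j, A i j ≠ 0)
    (i j : Fin n) : (dag C).cnt ∅ (start C.label j) (C.out i) ≠ 0 := by
  intro h
  have := sol_support C ∅ C.form (form_sol C) j (C.out i) h
  rw [hC] at this
  exact hA i j this

theorem lin_sep (A : Fin n → Fin n → F) (hC : C.Computes A)
    (hA : ∀ i i' j j', i ≠ i' → j ≠ j' → A i j * A i' j' ≠ A i j' * A i' j)
    (v : C.V) (i i' j j' : Fin n) (hi : i ≠ i') (hj : j ≠ j') :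
    ¬ ((dag C).cnt {v} (start C.label j) (C.out i) = 0 ∧
      (dag C).cnt {v} (start C.label j') (C.out i) = 0 ∧
      (dag C).cnt {v} (start C.label j) (C.out i') = 0 ∧
      (dag C).cnt {v} (start C.label j') (C.out i') = 0) := by
  rintro ⟨h1, h2, h3, h4⟩
  obtain ⟨g, hg⟩ := LC.exists_sol C ({v} : Finset C.V) C.wt
  have g1 := sol_support C {v} g hg j _ h1
  have g2 := sol_support C {v} g hg j' _ h2
  have g3 := sol_support C {v} g hg j _ h3
  have g4 := sol_support C {v} g hg j' _ h4
  obtain ⟨c, hc⟩ := form_split C v g hg (C.out i)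
  obtain ⟨c', hc'⟩ := form_split C v g hg (C.out i')
  apply hA i i' j j' hi hj
  rw [← hC, ← hC, ← hC, ← hC, hc, hc, hc', hc', g1, g2, g3, g4]
  ring

theorem linear_bound (A : Fin n → Fin n → F) (hC : C.Computes A) (hA1 : ∀ i j, A i j ≠ 0)
    (hA2 : ∀ i i' j j', i ≠ i' → j ≠ j' → A i j * A i' j' ≠ A i j' * A i' j)
    (δ : ℝ) (hδ : 0 < δ) (hδ2 : δ ≤ 2)
    (f : Fin n → C.V → ℕ) (hf : ∀ j, (dag C).IsCount ∅ (start C.label j) (f j))
    (hN : ((∑ i, ∑ j, f j (C.out i) : ℕ) : ℝ) ≤ (2 - δ) * (n : ℝ) ^ 2) :
    δ ^ 5 * (n : ℝ) ^ 2 / 20000 ≤ C.size := by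
  have hfc : ∀ j, f j = (dag C).cnt ∅ (start C.label j) := fun j =>
    (dag C).count_unique ∅ _ _ _ (hf j) ((dag C).cnt_eq ∅ _)
  have h := size_bound (dag C) C.label C.out
    (fun v i i' j j' hi hj => lin_sep C A hC hA2 v i i' j j' hi hj)
    (fun i j => lin_conn C A hC hA1 i j) δ hδ hδ2 (by
      refine le_trans (le_of_eq ?_) hN
      unfold NN
      simp only [hfc])
  refine h.trans (le_of_eq ?_)
  simp [LinCircuit.size, dag]

end lin

end Pool.Agent.H682R3.Few
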