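import Pool.Agent.H682R3.Few.Dag

namespace Pool.Agent.H682R3.Few

open Finset

variable {V : Type} [Fintype V] [DecidableEq V] (G : Dag V) {n : ℕ} (lab : V → Option (Fin n))
  (out : Fin n → V)

/-- Indicator of the nodes carrying the variable `x_j`. -/
def start (lab : V → Option (Fin n)) (j : Fin n) : V → ℕ := fun v => if lab v = some j then 1 else 0

/-- the variables with a path to `v` avoiding `T` -/
noncomputable def RR (T : Finset V) (v : V) : Finset (Fin n) :=
  univ.filter fun j => G.cnt T (start lab j) v ≠ 0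

/-- the outputs reached from `v` by a path avoiding `T` -/
noncomputable def SS (T : Finset V) (v : V) : Finset (Fin n) :=
  univ.filter fun i => G.cnt T (Pi.single v 1) (out i) ≠ 0

/-- the number of paths from variables to outputs avoiding `T` -/
noncomputable def NN (T : Finset V) : ℕ := ∑ i, ∑ j, G.cnt T (start lab j) (out i)

theorem thin_bound (T : Finset V) (κ : ℕ)
    (h : ∀ v ∉ T, (RR G lab T v).card ≤ κ ∨ (SS G out T v).card ≤ κ) :
    (univ.filter fun p : Fin n × Fin n => G.cnt T (start lab p.2) (out p.1) ≠ 0).card ≤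
      κ * Fintype.card V + κ ^ 2 * G.E.card + κ * n := by
  classical
  set Ch1 : Finset (Fin n × Fin n) := univ.biUnion (fun s : V =>
    if (SS G out T s).card ≤ κ then (SS G out T s) ×ˢ (univ.filter fun j => lab s = some j) else ∅)
    with hCh1
  set Ch2 : Finset (Fin n × Fin n) := G.E.biUnion (fun e =>
    if (RR G lab T e.1).card ≤ κ ∧ (SS G out T e.2).card ≤ κ then
      (SS G out T e.2) ×ˢ (RR G lab T e.1) else ∅) with hCh2
  set Ch3 : Finset (Fin n × Fin n) := univ.biUnion (fun i : Fin n =>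
    if (RR G lab T (out i)).card ≤ κ then {i} ×ˢ (RR G lab T (out i)) else ∅) with hCh3
  have c1 : Ch1.card ≤ κ * Fintype.card V := by
    refine card_biUnion_le.trans ?_
    calc ∑ s : V, (if (SS G out T s).card ≤ κ then
          (SS G out T s) ×ˢ (univ.filter fun j => lab s = some j) else ∅).card
        ≤ ∑ s : V, κ := by
          refine sum_le_sum fun s _ => ?_
          split_ifs with hs
          · rw [card_product]
            have : (univ.filter fun j => lab s = some j).card ≤ 1 := by
              rw [card_le_one]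
              intro a ha b hb
              rw [mem_filter] at ha hb
              exact Option.some.inj (ha.2.symm.trans hb.2)
            calc _ ≤ κ * 1 := Nat.mul_le_mul hs this
              _ = κ := mul_one _
          · simp
      _ = κ * Fintype.card V := by rw [sum_const, card_univ, smul_eq_mul, mul_comm]
  have c2 : Ch2.card ≤ κ ^ 2 * G.E.card := by
    refine card_biUnion_le.trans ?_
    calc ∑ e ∈ G.E, (if (RR G lab T e.1).card ≤ κ ∧ (SS G out T e.2).card ≤ κ then
          (SS G out T e.2) ×ˢ (RR G lab T e.1) else ∅).card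
        ≤ ∑ e ∈ G.E, κ ^ 2 := by
          refine sum_le_sum fun s _ => ?_
          split_ifs with hs
          · rw [card_product, sq]
            exact Nat.mul_le_mul hs.2 hs.1
          · simp
      _ = κ ^ 2 * G.E.card := by rw [sum_const, smul_eq_mul, mul_comm]
  have c3 : Ch3.card ≤ κ * n := by
    refine card_biUnion_le.trans ?_
    calc ∑ i : Fin n, (if (RR G lab T (out i)).card ≤ κ then
          {i} ×ˢ (RR G lab T (out i)) else ∅).card
        ≤ ∑ i : Fin n, κ := by
          refine sum_le_sum fun s _ => ?_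
          split_ifs with hs
          · rw [card_product, card_singleton, one_mul]
            exact hs
          · simp
      _ = κ * n := by rw [sum_const, card_univ, smul_eq_mul, mul_comm, Fintype.card_fin]
  have key : ∀ N : ℕ, ∀ w, G.rank w < N → w ∉ T → (SS G out T w).card ≤ κ →
      ∀ j ∈ RR G lab T w, ∀ i ∈ SS G out T w, (i, j) ∈ Ch1 ∪ Ch2 := by
    intro N
    induction N with
    | zero => intro v hv; exact absurd hv (Nat.not_lt_zero _)
    | succ N ih =>
      intro w hw hwT hwS j hj i hi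
      by_cases hl : lab w = some j
      · rw [mem_union]
        left
        rw [hCh1, mem_biUnion]
        refine ⟨w, mem_univ _, ?_⟩
        rw [if_pos hwS, mem_product]
        exact ⟨hi, by simpa using hl⟩
      · have h1 : G.cnt T (start lab j) w ≠ 0 := by simpa [RR] using hj
        rw [G.cnt_not_mem hwT] at h1
        have h2 : start lab j w = 0 := by simp [start, hl]
        rw [h2, zero_add] at h1
        obtain ⟨u, hu, hu0⟩ := exists_ne_zero_of_sum_ne_zero h1
        have huE : (u, w) ∈ G.E := by simpa using hu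
        have huT : u ∉ T := fun h' => hu0 (G.cnt_mem h')
        have hju : j ∈ RR G lab T u := by
          rw [RR, mem_filter]; exact ⟨mem_univ _, hu0⟩
        have hiu : i ∈ SS G out T u := by
          rw [SS, mem_filter] at hi ⊢
          refine ⟨mem_univ _, ?_⟩
          have := G.cnt_edge' huE huT hwT (out i)
          have := hi.2
          omega
        by_cases hs : (SS G out T u).card ≤ κ
        · have := G.acyclic u w huE
          exact ih u (by omega) huT hs j hju i hiu
        · have hr : (RR G lab T u).card ≤ κ := (h u huT).resolve_right hs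
          rw [mem_union]
          right
          rw [hCh2, mem_biUnion]
          refine ⟨(u, w), huE, ?_⟩
          rw [if_pos ⟨hr, hwS⟩, mem_product]
          exact ⟨hi, hju⟩
  have hsub : (univ.filter fun p : Fin n × Fin n => G.cnt T (start lab p.2) (out p.1) ≠ 0) ⊆
      (Ch1 ∪ Ch2) ∪ Ch3 := by
    rintro ⟨i, j⟩ hp
    rw [mem_filter] at hp
    have h0 : G.cnt T (start lab j) (out i) ≠ 0 := hp.2
    have hoT : out i ∉ T := fun h' => h0 (G.cnt_mem h')
    have hj : j ∈ RR G lab T (out i) := by rw [RR, mem_filter]; exact ⟨mem_univ _, h0⟩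
    have hi : i ∈ SS G out T (out i) := by
      rw [SS, mem_filter, G.cnt_single_self hoT]
      exact ⟨mem_univ _, one_ne_zero⟩
    rw [mem_union]
    by_cases hs : (SS G out T (out i)).card ≤ κ
    · left
      exact key _ (out i) (Nat.lt_succ_self _) hoT hs j hj i hi
    · right
      have hr := (h (out i) hoT).resolve_right hs
      rw [hCh3, mem_biUnion]
      refine ⟨i, mem_univ _, ?_⟩
      rw [if_pos hr, mem_product]
      exact ⟨mem_singleton_self _, hj⟩
  refine (card_le_card hsub).trans ((card_union_le _ _).trans ?_)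
  have := card_union_le Ch1 Ch2
  omega

/-- The real form of the bound for sets without `2 × 2` rectangles. -/
theorem kst_real {n : ℕ} (X : Finset (Fin n × Fin n)) (S R : Finset (Fin n)) (hX : X ⊆ S ×ˢ R)
    (h : ∀ i i' j j', i ≠ i' → j ≠ j' →
      ¬ ((i, j) ∈ X ∧ (i, j') ∈ X ∧ (i', j) ∈ X ∧ (i', j') ∈ X)) (κ : ℕ) (hκ : 1 ≤ κ)
    (hS : κ ≤ S.card) (hR : κ ≤ R.card) :
    (X.card : ℝ) ≤ 2 / √κ * (S.card * R.card) := by
  have h1 : ((X.card : ℝ)) ^ 2 ≤ S.card * ((R.card : ℝ) ^ 2 + X.card) := by
    exact_mod_cast kst X S R hX h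
  have hSr : (κ : ℝ) ≤ (S.card : ℝ) := by exact_mod_cast hS
  have hRr : (κ : ℝ) ≤ (R.card : ℝ) := by exact_mod_cast hR
  set e : ℝ := (X.card : ℝ)
  set s : ℝ := (S.card : ℝ)
  set r : ℝ := (R.card : ℝ)
  have hκr : (1 : ℝ) ≤ κ := by exact_mod_cast hκ
  have hs : (κ : ℝ) ≤ s := hSr
  have hr : (κ : ℝ) ≤ r := hRr
  have hs0 : 0 < s := by linarith
  have hr0 : 0 < r := by linarith
  have hq : 1 ≤ √(κ : ℝ) := Real.one_le_sqrt.mpr hκr
  have hq0 : 0 < √(κ : ℝ) := by linarith
  have hqq : √(κ : ℝ) * √(κ : ℝ) = κ := Real.mul_self_sqrt (by linarith)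
  by_contra hcon
  push Not at hcon
  have h2 : 2 / √(κ : ℝ) * (s * r) = 2 * s * r / √(κ : ℝ) := by ring
  rw [h2, div_lt_iff₀ hq0] at hcon
  -- `2 s r < e q`
  have h3 : 2 * s ≤ e := by
    have h4 : √(κ : ℝ) ≤ r := by nlinarith
    by_contra h5
    push Not at h5
    have : e * √(κ : ℝ) < 2 * s * r := by
      calc e * √(κ : ℝ) < 2 * s * √(κ : ℝ) := by gcongr
        _ ≤ 2 * s * r := by gcongr
    linarith
  have he0 : 0 < e := by linarith
  have h6 : e ^ 2 ≤ 2 * (s * r ^ 2) := by nlinarith
  have h7 : (2 * s * r) ^ 2 < (e * √(κ : ℝ)) ^ 2 := by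
    have : 0 ≤ 2 * s * r := by positivity
    exact pow_lt_pow_left₀ hcon this (by norm_num)
  have h8 : (e * √(κ : ℝ)) ^ 2 = e ^ 2 * κ := by rw [mul_pow, sq (√(κ : ℝ)), hqq]
  rw [h8] at h7
  have h9 : e ^ 2 * κ ≤ 2 * (s * r ^ 2) * s := by
    have : (0 : ℝ) ≤ κ := by linarith
    calc e ^ 2 * κ ≤ 2 * (s * r ^ 2) * κ := by gcongr
      _ ≤ 2 * (s * r ^ 2) * s := by gcongr
  have h10 : 0 < s ^ 2 * r ^ 2 := by positivity
  nlinarith

/-- the pairs joined by exactly one path -/
noncomputable def UU : Finset (Fin n × Fin n) :=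
  univ.filter fun p => G.cnt ∅ (start lab p.2) (out p.1) = 1

theorem main_ind (hH : ∀ (v : V) (i i' j j' : Fin n), i ≠ i' → j ≠ j' →
      ¬ (G.cnt {v} (start lab j) (out i) = 0 ∧ G.cnt {v} (start lab j') (out i) = 0 ∧
        G.cnt {v} (start lab j) (out i') = 0 ∧ G.cnt {v} (start lab j') (out i') = 0))
    (κ : ℕ) (hκ : 1 ≤ κ) : ∀ N : ℕ, ∀ T : Finset V, (Tᶜ).card = N →
      (((UU G lab out).filter (fun p => G.cnt T (start lab p.2) (out p.1) ≠ 0)).card : ℝ) ≤
        2 / √κ * NN G lab out T +
          (κ * Fintype.card V + (κ : ℝ) ^ 2 * G.E.card + κ * n) := by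
  classical
  intro N
  induction N using Nat.strong_induction_on with
  | _ N ih =>
    intro T hTN
    by_cases hthick : ∃ v, v ∉ T ∧ κ < (RR G lab T v).card ∧ κ < (SS G out T v).card
    · obtain ⟨v, hvT, hr, hs⟩ := hthick
      have hlt : ((insert v T)ᶜ).card < N := by
        rw [← hTN]
        refine card_lt_card ?_
        rw [compl_insert]
        exact erase_ssubset (mem_compl.mpr hvT)
      have ih' := ih _ hlt (insert v T) rfl
      set X : Finset (Fin n × Fin n) := (UU G lab out).filter
        (fun p => p.2 ∈ RR G lab T v ∧ p.1 ∈ SS G out T v) with hX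
      have hXsub : X ⊆ (SS G out T v) ×ˢ (RR G lab T v) := by
        intro p hp
        rw [hX, mem_filter] at hp
        rw [mem_product]
        exact ⟨hp.2.2, hp.2.1⟩
      have hXzero : ∀ i j, (i, j) ∈ X → G.cnt {v} (start lab j) (out i) = 0 := by
        intro i j hij
        rw [hX, mem_filter, UU, mem_filter, RR, SS, mem_filter, mem_filter] at hij
        obtain ⟨⟨_, h1⟩, ⟨_, h2⟩, ⟨_, h3⟩⟩ := hij
        simp only at h1 h2 h3
        have h4 := G.cnt_split (T := ∅) (v := v) (by simp) (start lab j) (out i)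
        rw [h1] at h4
        have h5 := G.cnt_anti (empty_subset T) (start lab j) v
        have h6 := G.cnt_anti (empty_subset T) (Pi.single v 1) (out i)
        have h7 : 1 ≤ G.cnt ∅ (start lab j) v := by omega
        have h8 : 1 ≤ G.cnt ∅ (Pi.single v 1) (out i) := by omega
        have h9 : 1 ≤ G.cnt ∅ (start lab j) v * G.cnt ∅ (Pi.single v 1) (out i) :=
          Nat.one_le_iff_ne_zero.mpr (Nat.mul_ne_zero (by omega) (by omega))
        have h10 : (insert v (∅ : Finset V)) = {v} := rfl
        rw [h10] at h4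
        omega
      have hXcard := kst_real X (SS G out T v) (RR G lab T v) hXsub (by
        rintro i i' j j' hi hj ⟨h1, h2, h3, h4⟩
        exact hH v i i' j j' hi hj ⟨hXzero _ _ h1, hXzero _ _ h2, hXzero _ _ h3, hXzero _ _ h4⟩)
        κ hκ hs.le hr.le
      have hcov : (UU G lab out).filter (fun p => G.cnt T (start lab p.2) (out p.1) ≠ 0) ⊆
          (UU G lab out).filter (fun p => G.cnt (insert v T) (start lab p.2) (out p.1) ≠ 0) ∪ X := by
        intro p hp
        rw [mem_filter] at hp
        rw [mem_union]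
        by_cases h0 : G.cnt (insert v T) (start lab p.2) (out p.1) = 0
        · right
          have h4 := G.cnt_split hvT (start lab p.2) (out p.1)
          rw [h0, zero_add] at h4
          have h5 := hp.2
          rw [h4] at h5
          rw [hX, mem_filter, RR, SS, mem_filter, mem_filter]
          exact ⟨hp.1, ⟨mem_univ _, (mul_ne_zero_iff.mp h5).1⟩,
            ⟨mem_univ _, (mul_ne_zero_iff.mp h5).2⟩⟩
        · left
          rw [mem_filter]
          exact ⟨hp.1, h0⟩
      have hN : NN G lab out (insert v T) + (SS G out T v).card * (RR G lab T v).card ≤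
          NN G lab out T := by
        have h1 : NN G lab out T = NN G lab out (insert v T) + ∑ i, ∑ j,
            G.cnt T (start lab j) v * G.cnt T (Pi.single v 1) (out i) := by
          unfold NN
          rw [← sum_add_distrib]
          refine sum_congr rfl fun i _ => ?_
          rw [← sum_add_distrib]
          exact sum_congr rfl fun j _ => G.cnt_split hvT _ _
        rw [h1]
        refine Nat.add_le_add_left ?_ _
        have h2 : (SS G out T v).card * (RR G lab T v).card =
            ∑ i ∈ SS G out T v, ∑ j ∈ RR G lab T v, 1 := by simp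
        rw [h2]
        calc ∑ i ∈ SS G out T v, ∑ j ∈ RR G lab T v, 1
            ≤ ∑ i ∈ SS G out T v, ∑ j ∈ RR G lab T v,
                G.cnt T (start lab j) v * G.cnt T (Pi.single v 1) (out i) := by
              refine sum_le_sum fun i hi => sum_le_sum fun j hj => ?_
              rw [SS, mem_filter] at hi
              rw [RR, mem_filter] at hj
              exact Nat.one_le_iff_ne_zero.mpr (Nat.mul_ne_zero hj.2 hi.2)
          _ ≤ ∑ i ∈ SS G out T v, ∑ j,
                G.cnt T (start lab j) v * G.cnt T (Pi.single v 1) (out i) :=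
              sum_le_sum fun i _ => sum_le_univ_sum_of_nonneg (fun _ => Nat.zero_le _)
          _ ≤ ∑ i, ∑ j, G.cnt T (start lab j) v * G.cnt T (Pi.single v 1) (out i) :=
              sum_le_univ_sum_of_nonneg (fun _ => Nat.zero_le _)
      have hNr : (NN G lab out (insert v T) : ℝ) +
          (SS G out T v).card * (RR G lab T v).card ≤ NN G lab out T := by exact_mod_cast hN
      have hcr : (((UU G lab out).filter (fun p => G.cnt T (start lab p.2) (out p.1) ≠ 0)).card : ℝ)
          ≤ ((UU G lab out).filter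
              (fun p => G.cnt (insert v T) (start lab p.2) (out p.1) ≠ 0)).card + X.card := by
        exact_mod_cast (card_le_card hcov).trans (card_union_le _ _)
      have hq : 0 ≤ 2 / √(κ : ℝ) := by positivity
      have := mul_le_mul_of_nonneg_left hNr hq
      linarith
    · push Not at hthick
      have h1 := thin_bound G lab out T κ (by
        intro v hv
        by_cases h : κ < (RR G lab T v).card
        · right; exact hthick v hv h
        · left; omega)
      have h2 : ((UU G lab out).filter (fun p => G.cnt T (start lab p.2) (out p.1) ≠ 0)).card ≤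
          κ * Fintype.card V + κ ^ 2 * G.E.card + κ * n := by
        refine (card_le_card ?_).trans h1
        intro p hp
        rw [mem_filter] at hp ⊢
        exact ⟨mem_univ _, hp.2⟩
      have h3 : (((UU G lab out).filter (fun p => G.cnt T (start lab p.2) (out p.1) ≠ 0)).card : ℝ) ≤
          κ * Fintype.card V + (κ : ℝ) ^ 2 * G.E.card + κ * n := by exact_mod_cast h2
      have h4 : 0 ≤ 2 / √(κ : ℝ) * NN G lab out T := by positivity
      linarith

/-- Graphs in which no vertex separates two inputs from two outputs have about `2 n²` paths, unless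
they are large. -/
theorem paths_bound (hH : ∀ (v : V) (i i' j j' : Fin n), i ≠ i' → j ≠ j' →
      ¬ (G.cnt {v} (start lab j) (out i) = 0 ∧ G.cnt {v} (start lab j') (out i) = 0 ∧
        G.cnt {v} (start lab j) (out i') = 0 ∧ G.cnt {v} (start lab j') (out i') = 0))
    (hconn : ∀ i j, G.cnt ∅ (start lab j) (out i) ≠ 0) (κ : ℕ) (hκ : 1 ≤ κ) :
    2 * (n : ℝ) ^ 2 ≤ (1 + 2 / √κ) * NN G lab out ∅ +
      (κ * Fintype.card V + (κ : ℝ) ^ 2 * G.E.card + κ * n) := by
  classical
  have h1 := main_ind G lab out hH κ hκ _ ∅ rfl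
  have h2 : (UU G lab out).filter (fun p => G.cnt ∅ (start lab p.2) (out p.1) ≠ 0) =
      UU G lab out := by
    rw [filter_true_of_mem]
    intro p _
    exact hconn _ _
  rw [h2] at h1
  have h3 : 2 * n ^ 2 ≤ NN G lab out ∅ + (UU G lab out).card := by
    have h4 : (UU G lab out).card =
        ∑ i : Fin n, ∑ j : Fin n, if G.cnt ∅ (start lab j) (out i) = 1 then 1 else 0 := by
      rw [UU, card_filter, Fintype.sum_prod_type]
    rw [h4, NN, ← sum_add_distrib]
    have h5 : 2 * n ^ 2 = ∑ _i : Fin n, ∑ _j : Fin n, 2 := by simp; ring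
    rw [h5]
    refine sum_le_sum fun i _ => ?_
    rw [← sum_add_distrib]
    refine sum_le_sum fun j _ => ?_
    have := hconn i j
    split_ifs <;> omega
  have h6 : 2 * (n : ℝ) ^ 2 ≤ NN G lab out ∅ + (UU G lab out).card := by exact_mod_cast h3
  linarith

theorem exists_source (j : Fin n) (w : V) (h : G.cnt ∅ (start lab j) w ≠ 0) :
    ∃ s, lab s = some j := by
  by_contra hcon
  push Not at hcon
  have main : ∀ N : ℕ, ∀ w, G.rank w < N → G.cnt ∅ (start lab j) w = 0 := by
    intro N
    induction N with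
    | zero => intro v hv; exact absurd hv (Nat.not_lt_zero _)
    | succ N ih =>
      intro w hw
      rw [G.cnt_not_mem (by simp)]
      have h1 : start lab j w = 0 := by simp [start, hcon w]
      rw [h1, zero_add]
      refine sum_eq_zero fun u hu => ih u ?_
      have := G.acyclic u w (by simpa using hu)
      omega
  exact h (main _ w (Nat.lt_succ_self _))

theorem card_ge (hconn : ∀ i j, G.cnt ∅ (start lab j) (out i) ≠ 0) : n ≤ Fintype.card V := by
  classical
  rcases Nat.eq_zero_or_pos n with h0 | h0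
  · subst h0; exact Nat.zero_le _
  · have h1 : ∀ j : Fin n, ∃ s, lab s = some j := fun j =>
      exists_source G lab j (out ⟨0, h0⟩) (hconn _ j)
    choose s hs using h1
    have hinj : Function.Injective s := by
      intro a b hab
      have := hs a
      rw [hab, hs b] at this
      exact (Option.some.inj this).symm
    simpa using Fintype.card_le_of_injective s hinj

/-- Fewer than `(2 - δ) n²` paths: quadratic size. -/
theorem size_bound (hH : ∀ (v : V) (i i' j j' : Fin n), i ≠ i' → j ≠ j' →
      ¬ (G.cnt {v} (start lab j) (out i) = 0 ∧ G.cnt {v} (start lab j') (out i) = 0 ∧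
        G.cnt {v} (start lab j) (out i') = 0 ∧ G.cnt {v} (start lab j') (out i') = 0))
    (hconn : ∀ i j, G.cnt ∅ (start lab j) (out i) ≠ 0) (δ : ℝ) (hδ : 0 < δ) (hδ2 : δ ≤ 2)
    (hN : (NN G lab out ∅ : ℝ) ≤ (2 - δ) * (n : ℝ) ^ 2) :
    δ ^ 5 * (n : ℝ) ^ 2 / 20000 ≤ Fintype.card V + G.E.card := by
  obtain ⟨κ, hκ1, hκ2⟩ : ∃ κ : ℕ, 64 / δ ^ 2 ≤ κ ∧ (κ : ℝ) ≤ 64 / δ ^ 2 + 1 :=
    ⟨⌈64 / δ ^ 2⌉₊, Nat.le_ceil _, (Nat.ceil_lt_add_one (by positivity)).le⟩
  have hκpos : (0 : ℝ) < κ := lt_of_lt_of_le (by positivity) hκ1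
  have hκ : 1 ≤ κ := by
    have : 0 < κ := by exact_mod_cast hκpos
    omega
  have hκr : (1 : ℝ) ≤ κ := by exact_mod_cast hκ
  have h := paths_bound G lab out hH hconn κ hκ
  have hq : 2 / √(κ : ℝ) ≤ δ / 4 := by
    rw [div_le_iff₀ (Real.sqrt_pos.mpr hκpos)]
    have h1 : 8 / δ ≤ √(κ : ℝ) := by
      refine Real.le_sqrt_of_sq_le ?_
      rw [div_pow]
      norm_num
      exact hκ1
    calc (2 : ℝ) = δ / 4 * (8 / δ) := by field_simp; norm_num
      _ ≤ δ / 4 * √(κ : ℝ) := by gcongr
  have hn := card_ge G lab out hconn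
  have hnr : (n : ℝ) ≤ Fintype.card V := by exact_mod_cast hn
  have hN0 : (0 : ℝ) ≤ NN G lab out ∅ := by positivity
  have h1 : (1 + 2 / √(κ : ℝ)) * NN G lab out ∅ ≤ (2 - δ / 2) * (n : ℝ) ^ 2 := by
    calc (1 + 2 / √(κ : ℝ)) * NN G lab out ∅ ≤ (1 + δ / 4) * ((2 - δ) * (n : ℝ) ^ 2) := by
          gcongr
      _ ≤ (2 - δ / 2) * (n : ℝ) ^ 2 := by
          have h0 : 0 ≤ δ ^ 2 * (n : ℝ) ^ 2 := by positivity
          nlinarith
  have h2 : κ * Fintype.card V + (κ : ℝ) ^ 2 * G.E.card + κ * n ≤
      2 * (κ : ℝ) ^ 2 * (Fintype.card V + G.E.card) := by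
    have hE0 : (0 : ℝ) ≤ G.E.card := by positivity
    have hV0 : (0 : ℝ) ≤ Fintype.card V := by positivity
    have h3 : (κ : ℝ) ≤ (κ : ℝ) ^ 2 := by nlinarith
    have h4 : (κ : ℝ) * Fintype.card V ≤ (κ : ℝ) ^ 2 * Fintype.card V := by gcongr
    have h5 : (κ : ℝ) * n ≤ (κ : ℝ) ^ 2 * Fintype.card V := by gcongr
    have h6 : 0 ≤ (κ : ℝ) ^ 2 * G.E.card := by positivity
    linarith
  have h3 : δ / 2 * (n : ℝ) ^ 2 ≤ 2 * (κ : ℝ) ^ 2 * (Fintype.card V + G.E.card) := by
    linarith
  have h4 : (κ : ℝ) ≤ 68 / δ ^ 2 := by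
    refine hκ2.trans ?_
    have h5 : (1 : ℝ) ≤ 4 / δ ^ 2 := by
      rw [le_div_iff₀ (by positivity)]
      nlinarith
    calc 64 / δ ^ 2 + 1 ≤ 64 / δ ^ 2 + 4 / δ ^ 2 := by linarith
      _ = 68 / δ ^ 2 := by ring
  have h5 : (κ : ℝ) ^ 2 ≤ 4624 / δ ^ 4 := by
    calc (κ : ℝ) ^ 2 ≤ (68 / δ ^ 2) ^ 2 := by gcongr
      _ = 4624 / δ ^ 4 := by rw [div_pow]; norm_num; ring
  have hsize0 : (0 : ℝ) ≤ Fintype.card V + G.E.card := by positivity
  have h6 : δ / 2 * (n : ℝ) ^ 2 ≤ 2 * (4624 / δ ^ 4) * (Fintype.card V + G.E.card) :=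
    h3.trans (by gcongr)
  have h7 : δ ^ 5 * (n : ℝ) ^ 2 / 18496 ≤ Fintype.card V + G.E.card := by
    have h8 : δ ^ 4 * (δ / 2 * (n : ℝ) ^ 2) ≤
        δ ^ 4 * (2 * (4624 / δ ^ 4) * (Fintype.card V + G.E.card)) := by gcongr
    have h9 : δ ^ 4 * (2 * (4624 / δ ^ 4) * ((Fintype.card V : ℝ) + G.E.card)) =
        9248 * (Fintype.card V + G.E.card) := by field_simp; ring
    rw [h9] at h8
    have h10 : δ ^ 4 * (δ / 2 * (n : ℝ) ^ 2) = δ ^ 5 * (n : ℝ) ^ 2 / 2 := by ring
    rw [h10] at h8
    linarith
  have h8 : 0 ≤ δ ^ 5 * (n : ℝ) ^ 2 := by positivity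
  linarith

end Pool.Agent.H682R3.Few
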