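import Pool.Agent.H682R3.Few.Rows

/-! # Arithmetic circuits for matrix multiplication with few paths -/

namespace Pool.Agent.H682R3.Few

open Finset

/-- the variables `a_{ij}` (`Sum.inl (i, j)`) and `b_{jk}` (`Sum.inr (j, k)`) -/
abbrev Vars (n : ℕ) : Type := (Fin n × Fin n) ⊕ (Fin n × Fin n)

/-- An arithmetic circuit over `F` in the variables `a_{ij}, b_{jk}`. A node with label `some x`
carries the variable `x`; the value of every other node (gate) is a polynomial, with coefficients in
`F`, in the values of its predecessors. This includes constants, additions, multiplications,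
multiplications by scalars and gates of any fan-in. -/
structure ACircuit (F : Type) [Field F] (n : ℕ) where
  V : Type
  [fin : Fintype V]
  [dec : DecidableEq V]
  G : Dag V
  label : V → Option (Vars n)
  val : V → MvPolynomial (Vars n) F
  val_input : ∀ v x, label v = some x → val v = MvPolynomial.X x
  val_gate : ∀ v, label v = none → val v ∈ Algebra.adjoin F (val '' {u | (u, v) ∈ G.E})
  out : Fin n → Fin n → V

attribute [instance] ACircuit.fin ACircuit.dec

section circuit

variable {F : Type} [Field F] {n : ℕ} (C : ACircuit F n)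

/-- The circuit computes the matrix product: the output `(i, k)` is `∑_j a_{ij} b_{jk}`. -/
def ACircuit.ComputesMM : Prop := ∀ i k, C.val (C.out i k) =
  ∑ j, MvPolynomial.X (Sum.inl (i, j)) * MvPolynomial.X (Sum.inr (j, k))

/-- the labels of the variables `a_{ij}` -/
def labA (v : C.V) : Option (Fin n × Fin n) := (C.label v).bind (Sum.elim some fun _ => none)

theorem labA_eq (v : C.V) (p : Fin n × Fin n) :
    labA C v = some p ↔ C.label v = some (Sum.inl p) := by
  unfold labA
  rcases h : C.label v with _ | (x | x)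
  · simp
  · simp
  · simp

theorem start_eq (r j : Fin n) (v : C.V) (h : C.label v = some (Sum.inl (r, j))) :
    start (rowLab (labA C) r) j v = 1 := by
  unfold start
  rw [if_pos]
  rw [rowLab_eq, labA_eq]
  exact h

theorem mem_adj (T : Finset C.V) (r j j' : Fin n) : ∀ w,
    C.G.cnt T (start (rowLab (labA C) r) j) w = 0 →
    C.G.cnt T (start (rowLab (labA C) r) j') w = 0 →
    C.val w ∈ Algebra.adjoin F ((MvPolynomial.X '' {x : Vars n | x ≠ Sum.inl (r, j) ∧
      x ≠ Sum.inl (r, j')}) ∪ C.val '' (T : Set C.V)) := by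
  have main : ∀ N : ℕ, ∀ w, C.G.rank w < N →
    C.G.cnt T (start (rowLab (labA C) r) j) w = 0 →
    C.G.cnt T (start (rowLab (labA C) r) j') w = 0 →
    C.val w ∈ Algebra.adjoin F ((MvPolynomial.X '' {x : Vars n | x ≠ Sum.inl (r, j) ∧
      x ≠ Sum.inl (r, j')}) ∪ C.val '' (T : Set C.V)) := by
    intro N
    induction N with
    | zero => intro v hv; exact absurd hv (Nat.not_lt_zero _)
    | succ N ih =>
      intro w hw h1 h2
      by_cases hwT : w ∈ T
      · exact Algebra.subset_adjoin (Or.inr ⟨w, hwT, rfl⟩)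
      · rw [C.G.cnt_not_mem hwT, Nat.add_eq_zero_iff] at h1 h2
        rcases hl : C.label w with _ | x
        · have hg := C.val_gate w hl
          refine Algebra.adjoin_le ?_ hg
          rintro _ ⟨u, hu, rfl⟩
          have huE : (u, w) ∈ C.G.E := hu
          have := C.G.acyclic u w huE
          exact ih u (by omega) ((sum_eq_zero_iff.mp h1.2) u (by simpa using huE))
            ((sum_eq_zero_iff.mp h2.2) u (by simpa using huE))
        · rw [C.val_input w x hl]
          refine Algebra.subset_adjoin (Or.inl ⟨x, ⟨?_, ?_⟩, rfl⟩)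
          · rintro rfl
            rw [start_eq C r j w hl] at h1
            exact one_ne_zero h1.1
          · rintro rfl
            rw [start_eq C r j' w hl] at h2
            exact one_ne_zero h2.1
  exact fun w => main _ w (Nat.lt_succ_self _)

/-- the values of the variables in the specialisation -/
def spv {K : Type} [CommRing K] (r j j' k k' : Fin n) (s t : K) : Vars n → K
  | Sum.inl p => if p = (r, j) then s else if p = (r, j') then t else 0
  | Sum.inr p => if p = (j, k) ∨ p = (j', k') then 1 else 0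

theorem spec_one {K : Type} [CommRing K] [Algebra F K] (r j j' k k' : Fin n) (s t : K)
    (h : j = j' ∨ k ≠ k') : MvPolynomial.aeval (spv r j j' k k' s t)
      (∑ l, MvPolynomial.X (Sum.inl (r, l)) * MvPolynomial.X (Sum.inr (l, k)) :
        MvPolynomial (Vars n) F) = s := by
  rw [map_sum]
  simp only [map_mul, MvPolynomial.aeval_X, spv]
  rw [sum_eq_single j]
  · simp
  · intro l _ hl
    by_cases hl' : l = j'
    · have hk : k ≠ k' := by
        rcases h with h | h
        · exact absurd (hl'.trans h.symm) hl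
        · exact h
      have h1 : ¬ ((l, k) = (j, k) ∨ (l, k) = (j', k')) := by
        rintro (h1 | h1)
        · exact hl (Prod.mk.inj h1).1
        · exact hk (Prod.mk.inj h1).2
      rw [if_neg h1, mul_zero]
    · have h1 : ¬ (r, l) = (r, j) := fun h1 => hl (Prod.mk.inj h1).2
      have h2 : ¬ (r, l) = (r, j') := fun h1 => hl' (Prod.mk.inj h1).2
      rw [if_neg h1, if_neg h2, zero_mul]
  · intro h; exact absurd (mem_univ _) h

theorem spec_two {K : Type} [CommRing K] [Algebra F K] (r j j' k k' : Fin n) (s t : K)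
    (hj : j ≠ j') (hk : k ≠ k') : MvPolynomial.aeval (spv r j j' k k' s t)
      (∑ l, MvPolynomial.X (Sum.inl (r, l)) * MvPolynomial.X (Sum.inr (l, k')) :
        MvPolynomial (Vars n) F) = t := by
  rw [map_sum]
  simp only [map_mul, MvPolynomial.aeval_X, spv]
  rw [sum_eq_single j']
  · have h1 : ¬ (r, j') = (r, j) := fun h1 => hj (Prod.mk.inj h1).2.symm
    rw [if_neg h1, if_pos rfl, if_pos (Or.inr rfl), mul_one]
  · intro l _ hl
    by_cases hl' : l = j
    · have h1 : ¬ ((l, k') = (j, k) ∨ (l, k') = (j', k')) := by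
        rintro (h1 | h1)
        · exact hk (Prod.mk.inj h1).2.symm
        · exact hl (Prod.mk.inj h1).1
      rw [if_neg h1, mul_zero]
    · have h1 : ¬ (r, l) = (r, j) := fun h1 => hl' (Prod.mk.inj h1).2
      have h2 : ¬ (r, l) = (r, j') := fun h1 => hl (Prod.mk.inj h1).2
      rw [if_neg h1, if_neg h2, zero_mul]
  · intro h; exact absurd (mem_univ _) h

theorem spec_mem {K : Type} [CommRing K] [Algebra F K] (r j j' k k' : Fin n) (s t : K)
    (T : Set C.V) (p : MvPolynomial (Vars n) F)
    (hp : p ∈ Algebra.adjoin F ((MvPolynomial.X '' {x : Vars n | x ≠ Sum.inl (r, j) ∧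
      x ≠ Sum.inl (r, j')}) ∪ C.val '' T)) :
    MvPolynomial.aeval (spv r j j' k k' s t) p ∈
      Algebra.adjoin F ((MvPolynomial.aeval (spv r j j' k k' s t)) '' (C.val '' T)) := by
  have h1 : MvPolynomial.aeval (spv r j j' k k' s t) p ∈
      (Algebra.adjoin F ((MvPolynomial.X '' {x : Vars n | x ≠ Sum.inl (r, j) ∧
      x ≠ Sum.inl (r, j')}) ∪ C.val '' T)).map (MvPolynomial.aeval (spv r j j' k k' s t)) :=
    Subalgebra.mem_map.mpr ⟨p, hp, rfl⟩
  rw [AlgHom.map_adjoin] at h1
  refine Algebra.adjoin_le ?_ h1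
  rintro _ ⟨q, hq | hq, rfl⟩
  · obtain ⟨x, ⟨hx1, hx2⟩, rfl⟩ := hq
    rw [MvPolynomial.aeval_X]
    rcases x with x | x
    · have e1 : x ≠ (r, j) := fun h => hx1 (by rw [h])
      have e2 : x ≠ (r, j') := fun h => hx2 (by rw [h])
      simp only [spv]
      rw [if_neg e1, if_neg e2]
      exact Subalgebra.zero_mem _
    · simp only [spv]
      split_ifs
      · exact Subalgebra.one_mem _
      · exact Subalgebra.zero_mem _
  · exact Algebra.subset_adjoin ⟨q, hq, rfl⟩

theorem mm_conn (hC : C.ComputesMM) (r i j : Fin n) :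
    C.G.cnt ∅ (start (rowLab (labA C) r) j) (C.out r i) ≠ 0 := by
  intro h
  have h1 := mem_adj C ∅ r j j (C.out r i) h h
  have h2 := spec_mem C r j j i i (Polynomial.X : Polynomial F) 0 _ _ h1
  rw [hC, spec_one r j j i i _ _ (Or.inl rfl)] at h2
  have h3 : ((MvPolynomial.aeval (spv r j j i i (Polynomial.X : Polynomial F) 0)) ''
      (C.val '' ((∅ : Finset C.V) : Set C.V)) : Set (Polynomial F)) = ∅ := by simp
  rw [h3, Algebra.adjoin_empty, Algebra.mem_bot] at h2
  obtain ⟨c, hc⟩ := h2
  have h4 := congrArg Polynomial.natDegree hc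
  rw [Polynomial.algebraMap_eq, Polynomial.natDegree_C, Polynomial.natDegree_X] at h4
  exact absurd h4 (by norm_num)

theorem mm_sep (hC : C.ComputesMM) (r : Fin n) (v : C.V) (i i' j j' : Fin n) (hi : i ≠ i')
    (hj : j ≠ j') :
    ¬ (C.G.cnt {v} (start (rowLab (labA C) r) j) (C.out r i) = 0 ∧
      C.G.cnt {v} (start (rowLab (labA C) r) j') (C.out r i) = 0 ∧
      C.G.cnt {v} (start (rowLab (labA C) r) j) (C.out r i') = 0 ∧
      C.G.cnt {v} (start (rowLab (labA C) r) j') (C.out r i') = 0) := by
  rintro ⟨h1, h2, h3, h4⟩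
  have e1 := spec_mem C r j j' i i' (MvPolynomial.X 0 : MvPolynomial (Fin 2) F)
    (MvPolynomial.X 1) _ _ (mem_adj C {v} r j j' (C.out r i) h1 h2)
  have e2 := spec_mem C r j j' i i' (MvPolynomial.X 0 : MvPolynomial (Fin 2) F)
    (MvPolynomial.X 1) _ _ (mem_adj C {v} r j j' (C.out r i') h3 h4)
  rw [hC, spec_one r j j' i i' _ _ (Or.inr hi)] at e1
  rw [hC, spec_two r j j' i i' _ _ hj hi] at e2
  set g : MvPolynomial (Fin 2) F := MvPolynomial.aeval
    (spv r j j' i i' (MvPolynomial.X 0 : MvPolynomial (Fin 2) F) (MvPolynomial.X 1)) (C.val v)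
    with hg
  have h5 : ((MvPolynomial.aeval
      (spv r j j' i i' (MvPolynomial.X 0 : MvPolynomial (Fin 2) F) (MvPolynomial.X 1))) ''
      (C.val '' (({v} : Finset C.V) : Set C.V)) : Set (MvPolynomial (Fin 2) F)) = {g} := by
    simp [hg]
  rw [h5, Algebra.adjoin_singleton_eq_range_aeval] at e1 e2
  obtain ⟨p, hp⟩ := e1
  obtain ⟨q, hq⟩ := e2
  let χ : MvPolynomial (Fin 2) F →ₐ[F] Polynomial F :=
    MvPolynomial.aeval (fun x : Fin 2 => if x = 0 then Polynomial.X else 0)
  have hp' : p.comp (χ g) = Polynomial.X := by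
    have := congrArg χ hp
    have h6 : χ (MvPolynomial.X 0) = Polynomial.X := by simp [χ]
    rw [h6] at this
    rw [← this]
    exact Polynomial.aeval_algHom_apply χ g p
  have hq' : q.comp (χ g) = 0 := by
    have := congrArg χ hq
    have h6 : χ (MvPolynomial.X 1) = 0 := by simp [χ]
    rw [h6] at this
    rw [← this]
    exact Polynomial.aeval_algHom_apply χ g q
  rw [Polynomial.comp_eq_zero_iff] at hq'
  rcases hq' with h6 | ⟨_, h6⟩
  · rw [h6] at hq
    have h7 : (MvPolynomial.X 1 : MvPolynomial (Fin 2) F) = 0 := by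
      rw [← hq]; simp
    exact MvPolynomial.X_ne_zero _ h7
  · rw [h6, Polynomial.comp_C] at hp'
    have h7 := congrArg Polynomial.natDegree hp'
    rw [Polynomial.natDegree_C, Polynomial.natDegree_X] at h7
    exact absurd h7 (by norm_num)

end circuit

end Pool.Agent.H682R3.Few
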