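import Pool.Agent.H682R3.Few.Main

/-! # Several input-output systems in one graph: charged edges -/

namespace Pool.Agent.H682R3.Few

open Finset

variable {V : Type} [Fintype V] [DecidableEq V] (G : Dag V) {n : ℕ} (lab : V → Option (Fin n))
  (out : Fin n → V)

/-- The charged edges: the number of outputs reached (avoiding `T`) drops to at most `κ`. -/
noncomputable def FF (T : Finset V) (κ : ℕ) : Finset (V × V) :=
  G.E.filter fun e => e.1 ∉ T ∧ e.2 ∉ T ∧ κ < (SS G out T e.1).card ∧ (SS G out T e.2).card ≤ κ ∧
    (RR G lab T e.1).card ≤ κ ∧ (RR G lab T e.1).Nonempty ∧ (SS G out T e.2).Nonempty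

theorem cnt_linear (T : Finset V) (a : V → ℕ) (x : V) :
    G.cnt T a x = ∑ w, a w * G.cnt T (Pi.single w 1) x := by
  have h : G.cnt T a = fun x => ∑ w, a w * G.cnt T (Pi.single w 1) x := by
    refine G.count_unique T a _ _ (G.cnt_eq T a) ?_
    intro x
    by_cases hx : x ∈ T
    · rw [if_pos hx]
      refine sum_eq_zero fun w _ => ?_
      rw [G.cnt_mem hx, mul_zero]
    · rw [if_neg hx]
      have h1 : a x = ∑ w, a w * (Pi.single w 1 : V → ℕ) x := by
        rw [Finset.sum_eq_single x]
        · simp
        · intro b _ hb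
          rw [Pi.single_eq_of_ne (Ne.symm hb), mul_zero]
        · intro h; exact absurd (mem_univ _) h
      have h2 : ∀ w, a w * G.cnt T (Pi.single w 1) x = a w * (Pi.single w 1 : V → ℕ) x +
          ∑ u ∈ univ.filter (fun u => (u, x) ∈ G.E), a w * G.cnt T (Pi.single w 1) u := by
        intro w
        rw [G.cnt_not_mem hx, mul_add, mul_sum]
      show ∑ w, a w * G.cnt T (Pi.single w 1) x = a x +
        ∑ u ∈ univ.filter (fun u => (u, x) ∈ G.E), ∑ w, a w * G.cnt T (Pi.single w 1) u
      rw [sum_congr rfl fun w _ => h2 w, sum_add_distrib, ← h1]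
      congr 1
      rw [sum_comm]
  exact congrFun h x

theorem SS_mono (T : Finset V) {u w : V} (h : (u, w) ∈ G.E) (hu : u ∉ T) (hw : w ∉ T) :
    SS G out T w ⊆ SS G out T u := by
  intro i hi
  rw [SS, mem_filter] at hi ⊢
  refine ⟨mem_univ _, ?_⟩
  have := G.cnt_edge' h hu hw (out i)
  have := hi.2
  omega

/-- Paths crossing charged edges are counted at most once. -/
theorem cross_bound (T : Finset V) (κ : ℕ) (a : V → ℕ) :
    ∑ e ∈ FF G lab out T κ, G.cnt ∅ a e.1 ≤ ∑ k, G.cnt ∅ a (out k) := by
  classical
  set F := FF G lab out T κ with hF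
  set a' : V → ℕ := fun w => ∑ u ∈ univ.filter (fun u => (u, w) ∈ F), G.cnt ∅ a u with ha'
  have hsum : ∑ e ∈ F, G.cnt ∅ a e.1 = ∑ w, a' w := by
    simp only [ha', sum_filter]
    rw [sum_comm, ← Fintype.sum_prod_type' (f := fun u w => if (u, w) ∈ F then G.cnt ∅ a u else 0)]
    rw [← sum_filter]
    simp
  have main : ∀ N : ℕ, ∀ x, G.rank x < N → G.cnt T a' x ≤ G.cnt ∅ a x ∧
      (x ∉ T → κ < (SS G out T x).card → G.cnt T a' x = 0) := by
    intro N
    induction N with
    | zero => intro v hv; exact absurd hv (Nat.not_lt_zero _)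
    | succ N ih =>
      intro x hx
      by_cases hxT : x ∈ T
      · rw [G.cnt_mem hxT]
        exact ⟨Nat.zero_le _, fun h => absurd hxT h⟩
      · constructor
        · rw [G.cnt_not_mem hxT, G.cnt_not_mem (T := ∅) (a := a) (notMem_empty x)]
          have h1 : a' x = ∑ u ∈ univ.filter (fun u => (u, x) ∈ G.E),
              if (u, x) ∈ F then G.cnt ∅ a u else 0 := by
            rw [← sum_filter, filter_filter]
            simp only [ha']
            congr 1
            ext u
            simp only [mem_filter, mem_univ, true_and]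
            exact ⟨fun h => ⟨(mem_filter.mp h).1, h⟩, fun h => h.2⟩
          rw [h1, ← sum_add_distrib]
          refine le_trans (sum_le_sum (g := fun u => G.cnt ∅ a u) fun u hu => ?_)
            (Nat.le_add_left _ _)
          have hr := G.acyclic u x (by simpa using hu)
          have ihu := ih u (by omega)
          by_cases hf : (u, x) ∈ F
          · rw [if_pos hf]
            have hf' := (mem_filter.mp hf).2
            rw [ihu.2 hf'.1 hf'.2.2.1, add_zero]
          · rw [if_neg hf, zero_add]
            exact ihu.1
        · intro _ hk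
          rw [G.cnt_not_mem hxT]
          have h1 : a' x = 0 := by
            simp only [ha']
            refine sum_eq_zero fun u hu => ?_
            have hf : (u, x) ∈ F := by simpa using hu
            have hf' := (mem_filter.mp hf).2
            have := hf'.2.2.2.1
            simp only at this
            omega
          rw [h1, zero_add]
          refine sum_eq_zero fun u hu => ?_
          have huE : (u, x) ∈ G.E := by simpa using hu
          have hr := G.acyclic u x huE
          by_cases huT : u ∈ T
          · exact G.cnt_mem huT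
          · refine (ih u (by omega)).2 huT (lt_of_lt_of_le hk ?_)
            exact card_le_card (SS_mono G out T huE huT hxT)
  rw [hsum]
  calc ∑ w, a' w ≤ ∑ w, a' w * ∑ k, G.cnt T (Pi.single w 1) (out k) := by
        refine sum_le_sum fun w _ => ?_
        by_cases h0 : a' w = 0
        · rw [h0]; simp
        · obtain ⟨u, hu, _⟩ := exists_ne_zero_of_sum_ne_zero h0
          have hf : (u, w) ∈ F := by simpa using hu
          obtain ⟨i, hi⟩ := (mem_filter.mp hf).2.2.2.2.2.2.2
          rw [SS, mem_filter] at hi
          have h1 : 1 ≤ ∑ k, G.cnt T (Pi.single w 1) (out k) := by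
            refine le_trans (Nat.one_le_iff_ne_zero.mpr hi.2) ?_
            exact single_le_sum (f := fun k => G.cnt T (Pi.single w 1) (out k))
              (fun _ _ => Nat.zero_le _) (mem_univ i)
          calc a' w = a' w * 1 := (mul_one _).symm
            _ ≤ _ := Nat.mul_le_mul_left _ h1
    _ = ∑ k, G.cnt T a' (out k) := by
        simp only [cnt_linear G T a', mul_sum]
        rw [sum_comm]
    _ ≤ ∑ k, G.cnt ∅ a (out k) := sum_le_sum fun k _ => (main _ (out k) (Nat.lt_succ_self _)).1

theorem thin_bound' (T : Finset V) (κ : ℕ)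
    (h : ∀ v ∉ T, (RR G lab T v).card ≤ κ ∨ (SS G out T v).card ≤ κ) :
    (univ.filter fun p : Fin n × Fin n => G.cnt T (start lab p.2) (out p.1) ≠ 0).card ≤
      κ * (univ.filter fun v => lab v ≠ none).card + κ ^ 2 * (FF G lab out T κ).card + κ * n := by
  classical
  set Ch1 : Finset (Fin n × Fin n) := (univ.filter fun v => lab v ≠ none).biUnion (fun s : V =>
    if (SS G out T s).card ≤ κ then (SS G out T s) ×ˢ (univ.filter fun j => lab s = some j) else ∅)
    with hCh1
  set Ch2 : Finset (Fin n × Fin n) := (FF G lab out T κ).biUnion (fun e =>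
    if (RR G lab T e.1).card ≤ κ ∧ (SS G out T e.2).card ≤ κ then
      (SS G out T e.2) ×ˢ (RR G lab T e.1) else ∅) with hCh2
  set Ch3 : Finset (Fin n × Fin n) := univ.biUnion (fun i : Fin n =>
    if (RR G lab T (out i)).card ≤ κ then {i} ×ˢ (RR G lab T (out i)) else ∅) with hCh3
  have c1 : Ch1.card ≤ κ * (univ.filter fun v => lab v ≠ none).card := by
    refine card_biUnion_le.trans ?_
    calc ∑ s ∈ univ.filter (fun v => lab v ≠ none), (if (SS G out T s).card ≤ κ then
          (SS G out T s) ×ˢ (univ.filter fun j => lab s = some j) else ∅).card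
        ≤ ∑ s ∈ univ.filter (fun v => lab v ≠ none), κ := by
          refine sum_le_sum fun s _ => ?_
          split_ifs with hs
          · rw [card_product]
            have : (univ.filter fun j => lab s = some j).card ≤ 1 := by
              rw [card_le_one]
              intro a ha b hb
              rw [mem_filter] at ha hb
              exact Option.some.inj (ha.2.symm.trans hb.2)
            calc _ ≤ κ * 1 := Nat.mul_le_mul hs this
              _ = κ := mul_one _
          · simp
      _ = κ * (univ.filter fun v => lab v ≠ none).card := by rw [sum_const, smul_eq_mul, mul_comm]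
  have c2 : Ch2.card ≤ κ ^ 2 * (FF G lab out T κ).card := by
    refine card_biUnion_le.trans ?_
    calc ∑ e ∈ FF G lab out T κ, (if (RR G lab T e.1).card ≤ κ ∧ (SS G out T e.2).card ≤ κ then
          (SS G out T e.2) ×ˢ (RR G lab T e.1) else ∅).card
        ≤ ∑ e ∈ FF G lab out T κ, κ ^ 2 := by
          refine sum_le_sum fun s _ => ?_
          split_ifs with hs
          · rw [card_product, sq]
            exact Nat.mul_le_mul hs.2 hs.1
          · simp
      _ = κ ^ 2 * (FF G lab out T κ).card := by rw [sum_const, smul_eq_mul, mul_comm]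
  have c3 : Ch3.card ≤ κ * n := by
    refine card_biUnion_le.trans ?_
    calc ∑ i : Fin n, (if (RR G lab T (out i)).card ≤ κ then
          {i} ×ˢ (RR G lab T (out i)) else ∅).card
        ≤ ∑ i : Fin n, κ := by
          refine sum_le_sum fun s _ => ?_
          split_ifs with hs
          · rw [card_product, card_singleton, one_mul]
            exact hs
          · simp
      _ = κ * n := by rw [sum_const, card_univ, smul_eq_mul, mul_comm, Fintype.card_fin]
  have key : ∀ N : ℕ, ∀ w, G.rank w < N → w ∉ T → (SS G out T w).card ≤ κ →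
      ∀ j ∈ RR G lab T w, ∀ i ∈ SS G out T w, (i, j) ∈ Ch1 ∪ Ch2 := by
    intro N
    induction N with
    | zero => intro v hv; exact absurd hv (Nat.not_lt_zero _)
    | succ N ih =>
      intro w hw hwT hwS j hj i hi
      by_cases hl : lab w = some j
      · rw [mem_union]
        left
        rw [hCh1, mem_biUnion]
        refine ⟨w, by rw [mem_filter]; exact ⟨mem_univ _, by rw [hl]; exact Option.some_ne_none j⟩, ?_⟩
        rw [if_pos hwS, mem_product]
        exact ⟨hi, by simpa using hl⟩
      · have h1 : G.cnt T (start lab j) w ≠ 0 := by simpa [RR] using hj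
        rw [G.cnt_not_mem hwT] at h1
        have h2 : start lab j w = 0 := by simp [start, hl]
        rw [h2, zero_add] at h1
        obtain ⟨u, hu, hu0⟩ := exists_ne_zero_of_sum_ne_zero h1
        have huE : (u, w) ∈ G.E := by simpa using hu
        have huT : u ∉ T := fun h' => hu0 (G.cnt_mem h')
        have hju : j ∈ RR G lab T u := by
          rw [RR, mem_filter]; exact ⟨mem_univ _, hu0⟩
        have hiu : i ∈ SS G out T u := by
          rw [SS, mem_filter] at hi ⊢
          refine ⟨mem_univ _, ?_⟩
          have := G.cnt_edge' huE huT hwT (out i)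
          have := hi.2
          omega
        by_cases hs : (SS G out T u).card ≤ κ
        · have := G.acyclic u w huE
          exact ih u (by omega) huT hs j hju i hiu
        · have hr : (RR G lab T u).card ≤ κ := (h u huT).resolve_right hs
          rw [mem_union]
          right
          rw [hCh2, mem_biUnion]
          refine ⟨(u, w), mem_filter.mpr ⟨huE, huT, hwT, not_le.mp hs, hwS, hr, ⟨j, hju⟩, ⟨i, hi⟩⟩, ?_⟩
          rw [if_pos ⟨hr, hwS⟩, mem_product]
          exact ⟨hi, hju⟩
  have hsub : (univ.filter fun p : Fin n × Fin n => G.cnt T (start lab p.2) (out p.1) ≠ 0) ⊆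
      (Ch1 ∪ Ch2) ∪ Ch3 := by
    rintro ⟨i, j⟩ hp
    rw [mem_filter] at hp
    have h0 : G.cnt T (start lab j) (out i) ≠ 0 := hp.2
    have hoT : out i ∉ T := fun h' => h0 (G.cnt_mem h')
    have hj : j ∈ RR G lab T (out i) := by rw [RR, mem_filter]; exact ⟨mem_univ _, h0⟩
    have hi : i ∈ SS G out T (out i) := by
      rw [SS, mem_filter, G.cnt_single_self hoT]
      exact ⟨mem_univ _, one_ne_zero⟩
    rw [mem_union]
    by_cases hs : (SS G out T (out i)).card ≤ κ
    · left
      exact key _ (out i) (Nat.lt_succ_self _) hoT hs j hj i hi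
    · right
      have hr := (h (out i) hoT).resolve_right hs
      rw [hCh3, mem_biUnion]
      refine ⟨i, mem_univ _, ?_⟩
      rw [if_pos hr, mem_product]
      exact ⟨mem_singleton_self _, hj⟩
  refine (card_le_card hsub).trans ((card_union_le _ _).trans ?_)
  have := card_union_le Ch1 Ch2
  omega

theorem main_ind' (hH : ∀ (v : V) (i i' j j' : Fin n), i ≠ i' → j ≠ j' →
      ¬ (G.cnt {v} (start lab j) (out i) = 0 ∧ G.cnt {v} (start lab j') (out i) = 0 ∧
        G.cnt {v} (start lab j) (out i') = 0 ∧ G.cnt {v} (start lab j') (out i') = 0))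
    (κ : ℕ) (hκ : 1 ≤ κ) : ∀ N : ℕ, ∀ T : Finset V, (Tᶜ).card = N →
      ∃ T' : Finset V, (((UU G lab out).filter
          (fun p => G.cnt T (start lab p.2) (out p.1) ≠ 0)).card : ℝ) ≤
        2 / √κ * NN G lab out T +
          (κ * (univ.filter fun v => lab v ≠ none).card + (κ : ℝ) ^ 2 * (FF G lab out T' κ).card +
            κ * n) := by
  classical
  intro N
  induction N using Nat.strong_induction_on with
  | _ N ih =>
    intro T hTN
    by_cases hthick : ∃ v, v ∉ T ∧ κ < (RR G lab T v).card ∧ κ < (SS G out T v).card
    · obtain ⟨v, hvT, hr, hs⟩ := hthick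
      have hlt : ((insert v T)ᶜ).card < N := by
        rw [← hTN]
        refine card_lt_card ?_
        rw [compl_insert]
        exact erase_ssubset (mem_compl.mpr hvT)
      obtain ⟨T', ih'⟩ := ih _ hlt (insert v T) rfl
      refine ⟨T', ?_⟩
      set X : Finset (Fin n × Fin n) := (UU G lab out).filter
        (fun p => p.2 ∈ RR G lab T v ∧ p.1 ∈ SS G out T v) with hX
      have hXsub : X ⊆ (SS G out T v) ×ˢ (RR G lab T v) := by
        intro p hp
        rw [hX, mem_filter] at hp
        rw [mem_product]
        exact ⟨hp.2.2, hp.2.1⟩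
      have hXzero : ∀ i j, (i, j) ∈ X → G.cnt {v} (start lab j) (out i) = 0 := by
        intro i j hij
        rw [hX, mem_filter, UU, mem_filter, RR, SS, mem_filter, mem_filter] at hij
        obtain ⟨⟨_, h1⟩, ⟨_, h2⟩, ⟨_, h3⟩⟩ := hij
        simp only at h1 h2 h3
        have h4 := G.cnt_split (T := ∅) (v := v) (by simp) (start lab j) (out i)
        rw [h1] at h4
        have h5 := G.cnt_anti (empty_subset T) (start lab j) v
        have h6 := G.cnt_anti (empty_subset T) (Pi.single v 1) (out i)
        have h7 : 1 ≤ G.cnt ∅ (start lab j) v := by omega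
        have h8 : 1 ≤ G.cnt ∅ (Pi.single v 1) (out i) := by omega
        have h9 : 1 ≤ G.cnt ∅ (start lab j) v * G.cnt ∅ (Pi.single v 1) (out i) :=
          Nat.one_le_iff_ne_zero.mpr (Nat.mul_ne_zero (by omega) (by omega))
        have h10 : (insert v (∅ : Finset V)) = {v} := rfl
        rw [h10] at h4
        omega
      have hXcard := kst_real X (SS G out T v) (RR G lab T v) hXsub (by
        rintro i i' j j' hi hj ⟨h1, h2, h3, h4⟩
        exact hH v i i' j j' hi hj ⟨hXzero _ _ h1, hXzero _ _ h2, hXzero _ _ h3, hXzero _ _ h4⟩)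
        κ hκ hs.le hr.le
      have hcov : (UU G lab out).filter (fun p => G.cnt T (start lab p.2) (out p.1) ≠ 0) ⊆
          (UU G lab out).filter (fun p => G.cnt (insert v T) (start lab p.2) (out p.1) ≠ 0) ∪ X := by
        intro p hp
        rw [mem_filter] at hp
        rw [mem_union]
        by_cases h0 : G.cnt (insert v T) (start lab p.2) (out p.1) = 0
        · right
          have h4 := G.cnt_split hvT (start lab p.2) (out p.1)
          rw [h0, zero_add] at h4
          have h5 := hp.2
          rw [h4] at h5
          rw [hX, mem_filter, RR, SS, mem_filter, mem_filter]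
          exact ⟨hp.1, ⟨mem_univ _, (mul_ne_zero_iff.mp h5).1⟩,
            ⟨mem_univ _, (mul_ne_zero_iff.mp h5).2⟩⟩
        · left
          rw [mem_filter]
          exact ⟨hp.1, h0⟩
      have hN : NN G lab out (insert v T) + (SS G out T v).card * (RR G lab T v).card ≤
          NN G lab out T := by
        have h1 : NN G lab out T = NN G lab out (insert v T) + ∑ i, ∑ j,
            G.cnt T (start lab j) v * G.cnt T (Pi.single v 1) (out i) := by
          unfold NN
          rw [← sum_add_distrib]
          refine sum_congr rfl fun i _ => ?_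
          rw [← sum_add_distrib]
          exact sum_congr rfl fun j _ => G.cnt_split hvT _ _
        rw [h1]
        refine Nat.add_le_add_left ?_ _
        have h2 : (SS G out T v).card * (RR G lab T v).card =
            ∑ i ∈ SS G out T v, ∑ j ∈ RR G lab T v, 1 := by simp
        rw [h2]
        calc ∑ i ∈ SS G out T v, ∑ j ∈ RR G lab T v, 1
            ≤ ∑ i ∈ SS G out T v, ∑ j ∈ RR G lab T v,
                G.cnt T (start lab j) v * G.cnt T (Pi.single v 1) (out i) := by
              refine sum_le_sum fun i hi => sum_le_sum fun j hj => ?_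
              rw [SS, mem_filter] at hi
              rw [RR, mem_filter] at hj
              exact Nat.one_le_iff_ne_zero.mpr (Nat.mul_ne_zero hj.2 hi.2)
          _ ≤ ∑ i ∈ SS G out T v, ∑ j,
                G.cnt T (start lab j) v * G.cnt T (Pi.single v 1) (out i) :=
              sum_le_sum fun i _ => sum_le_univ_sum_of_nonneg (fun _ => Nat.zero_le _)
          _ ≤ ∑ i, ∑ j, G.cnt T (start lab j) v * G.cnt T (Pi.single v 1) (out i) :=
              sum_le_univ_sum_of_nonneg (fun _ => Nat.zero_le _)
      have hNr : (NN G lab out (insert v T) : ℝ) +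
          (SS G out T v).card * (RR G lab T v).card ≤ NN G lab out T := by exact_mod_cast hN
      have hcr : (((UU G lab out).filter (fun p => G.cnt T (start lab p.2) (out p.1) ≠ 0)).card : ℝ)
          ≤ ((UU G lab out).filter
              (fun p => G.cnt (insert v T) (start lab p.2) (out p.1) ≠ 0)).card + X.card := by
        exact_mod_cast (card_le_card hcov).trans (card_union_le _ _)
      have hq : 0 ≤ 2 / √(κ : ℝ) := by positivity
      have := mul_le_mul_of_nonneg_left hNr hq
      linarith
    · push Not at hthick
      refine ⟨T, ?_⟩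
      have h1 := thin_bound' G lab out T κ (by
        intro v hv
        by_cases h : κ < (RR G lab T v).card
        · right; exact hthick v hv h
        · left; omega)
      have h2 : ((UU G lab out).filter (fun p => G.cnt T (start lab p.2) (out p.1) ≠ 0)).card ≤
          κ * (univ.filter fun v => lab v ≠ none).card + κ ^ 2 * (FF G lab out T κ).card +
            κ * n := by
        refine (card_le_card ?_).trans h1
        intro p hp
        rw [mem_filter] at hp ⊢
        exact ⟨mem_univ _, hp.2⟩
      have h3 : (((UU G lab out).filter (fun p => G.cnt T (start lab p.2) (out p.1) ≠ 0)).card : ℝ) ≤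
          κ * (univ.filter fun v => lab v ≠ none).card + (κ : ℝ) ^ 2 * (FF G lab out T κ).card +
            κ * n := by exact_mod_cast h2
      have h4 : 0 ≤ 2 / √(κ : ℝ) * NN G lab out T := by positivity
      linarith

/-- Graphs in which no vertex separates two inputs from two outputs have about `2 n²` paths, unless
they are large. -/
theorem paths_bound' (hH : ∀ (v : V) (i i' j j' : Fin n), i ≠ i' → j ≠ j' →
      ¬ (G.cnt {v} (start lab j) (out i) = 0 ∧ G.cnt {v} (start lab j') (out i) = 0 ∧
        G.cnt {v} (start lab j) (out i') = 0 ∧ G.cnt {v} (start lab j') (out i') = 0))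
    (hconn : ∀ i j, G.cnt ∅ (start lab j) (out i) ≠ 0) (κ : ℕ) (hκ : 1 ≤ κ) :
    ∃ T' : Finset V, 2 * (n : ℝ) ^ 2 ≤ (1 + 2 / √κ) * NN G lab out ∅ +
      (κ * (univ.filter fun v => lab v ≠ none).card + (κ : ℝ) ^ 2 * (FF G lab out T' κ).card +
        κ * n) := by
  classical
  obtain ⟨T', h1⟩ := main_ind' G lab out hH κ hκ _ ∅ rfl
  refine ⟨T', ?_⟩
  have h2 : (UU G lab out).filter (fun p => G.cnt ∅ (start lab p.2) (out p.1) ≠ 0) =
      UU G lab out := by
    rw [filter_true_of_mem]
    intro p _
    exact hconn _ _
  rw [h2] at h1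
  have h3 : 2 * n ^ 2 ≤ NN G lab out ∅ + (UU G lab out).card := by
    have h4 : (UU G lab out).card =
        ∑ i : Fin n, ∑ j : Fin n, if G.cnt ∅ (start lab j) (out i) = 1 then 1 else 0 := by
      rw [UU, card_filter, Fintype.sum_prod_type]
    rw [h4, NN, ← sum_add_distrib]
    have h5 : 2 * n ^ 2 = ∑ _i : Fin n, ∑ _j : Fin n, 2 := by simp; ring
    rw [h5]
    refine sum_le_sum fun i _ => ?_
    rw [← sum_add_distrib]
    refine sum_le_sum fun j _ => ?_
    have := hconn i j
    split_ifs <;> omega
  have h6 : 2 * (n : ℝ) ^ 2 ≤ NN G lab out ∅ + (UU G lab out).card := by exact_mod_cast h3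
  linarith

end Pool.Agent.H682R3.Few
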