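import Pool.Agent.H682R3.Few.Multi

/-! # Matrix multiplication type systems: `n` rows -/

namespace Pool.Agent.H682R3.Few

open Finset

variable {V : Type} [Fintype V] [DecidableEq V] (G : Dag V) {n : ℕ}
  (lab : V → Option (Fin n × Fin n)) (out : Fin n → Fin n → V)

/-- the labels of the variables of row `i` -/
def rowLab (i : Fin n) : V → Option (Fin n) := fun v =>
  (lab v).bind fun p => if p.1 = i then some p.2 else none

omit [Fintype V] [DecidableEq V] in
theorem rowLab_eq (i j : Fin n) (v : V) : rowLab lab i v = some j ↔ lab v = some (i, j) := by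
  unfold rowLab
  rcases h : lab v with _ | ⟨a, b⟩
  · simp
  · simp only [Option.bind_some, Option.some.injEq, Prod.mk.injEq]
    by_cases ha : a = i
    · simp [ha]
    · simp [ha]

/-- The number of paths from the variables of row `i'` to the outputs of row `i`. -/
noncomputable def PP (i' i : Fin n) : ℕ := ∑ j, ∑ k, G.cnt ∅ (start (rowLab lab i') j) (out i k)

omit [DecidableEq V] in
theorem sum_labels : ∑ i, (univ.filter fun v => rowLab lab i v ≠ none).card ≤ Fintype.card V := by
  have h1 : ∀ i, (univ.filter fun v => rowLab lab i v ≠ none).card =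
      ∑ v : V, if rowLab lab i v ≠ none then 1 else 0 := fun i => by rw [card_filter]
  simp only [h1]
  rw [sum_comm]
  calc ∑ v : V, ∑ i, (if rowLab lab i v ≠ none then 1 else 0) ≤ ∑ v : V, 1 := by
        refine sum_le_sum fun v _ => ?_
        rw [← card_filter, card_le_one]
        intro a ha b hb
        rw [mem_filter] at ha hb
        obtain ⟨j, hj⟩ := Option.ne_none_iff_exists'.mp ha.2
        obtain ⟨j', hj'⟩ := Option.ne_none_iff_exists'.mp hb.2
        rw [rowLab_eq] at hj hj'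
        rw [hj] at hj'
        exact (Prod.mk.inj (Option.some.inj hj')).1
    _ = Fintype.card V := by simp

theorem sum_edges (T : Fin n → Finset V) (κ : ℕ) :
    (∑ i, (FF G (rowLab lab i) (out i) (T i) κ).card) ^ 2 ≤
      G.E.card * ∑ i', ∑ i, PP G lab out i' i := by
  classical
  set F : Fin n → Finset (V × V) := fun i => FF G (rowLab lab i) (out i) (T i) κ with hF
  let x : Fin n → V × V → ℕ := fun i e => if e ∈ F i then 1 else 0
  have hFE : ∀ i, F i ⊆ G.E := fun i => filter_subset _ _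
  have h1 : ∑ i, (F i).card = ∑ e ∈ G.E, ∑ i, x i e := by
    rw [sum_comm]
    refine sum_congr rfl fun i _ => ?_
    simp only [x]
    rw [← card_filter]
    congr 1
    ext e
    rw [mem_filter]
    exact ⟨fun h => ⟨hFE i h, h⟩, fun h => h.2⟩
  have h2 : (∑ e ∈ G.E, ∑ i, x i e) ^ 2 ≤ G.E.card * ∑ e ∈ G.E, (∑ i, x i e) ^ 2 :=
    sq_sum_le_card_mul_sum_sq
  have h3 : ∑ e ∈ G.E, (∑ i, x i e) ^ 2 = ∑ i, ∑ i', ∑ e ∈ G.E, x i e * x i' e := by
    have : ∀ e, (∑ i, x i e) ^ 2 = ∑ i, ∑ i', x i e * x i' e := by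
      intro e; rw [sq, sum_mul_sum]
    rw [sum_congr rfl fun e _ => this e, sum_comm]
    refine sum_congr rfl fun i _ => ?_
    rw [sum_comm]
  have h4 : ∀ i i', ∑ e ∈ G.E, x i e * x i' e ≤ PP G lab out i' i := by
    intro i i'
    have h5 : ∑ e ∈ G.E, x i e * x i' e = ∑ e ∈ F i, x i' e := by
      have h6 : ∑ e ∈ F i, x i' e = ∑ e ∈ G.E.filter (fun e => e ∈ F i), x i' e := by
        congr 1
        ext e
        rw [mem_filter]
        exact ⟨fun h => ⟨hFE i h, h⟩, fun h => h.2⟩
      rw [h6, sum_filter]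
      refine sum_congr rfl fun e _ => ?_
      simp only [x]
      split_ifs <;> simp
    rw [h5]
    calc ∑ e ∈ F i, x i' e ≤ ∑ e ∈ F i, ∑ j, G.cnt ∅ (start (rowLab lab i') j) e.1 := by
          refine sum_le_sum fun e _ => ?_
          simp only [x]
          split_ifs with he
          · obtain ⟨j, hj⟩ := (mem_filter.mp he).2.2.2.2.2.2.1
            have hj2 : G.cnt (T i') (start (rowLab lab i') j) e.1 ≠ 0 := (mem_filter.mp hj).2
            have h7 := G.cnt_anti (empty_subset (T i')) (start (rowLab lab i') j) e.1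
            have h8 : G.cnt ∅ (start (rowLab lab i') j) e.1 ≤
                ∑ j, G.cnt ∅ (start (rowLab lab i') j) e.1 :=
              single_le_sum (f := fun j => G.cnt ∅ (start (rowLab lab i') j) e.1)
                (fun _ _ => Nat.zero_le _) (mem_univ j)
            omega
          · exact Nat.zero_le _
      _ = ∑ j, ∑ e ∈ F i, G.cnt ∅ (start (rowLab lab i') j) e.1 := sum_comm
      _ ≤ ∑ j, ∑ k, G.cnt ∅ (start (rowLab lab i') j) (out i k) :=
          sum_le_sum fun j _ => cross_bound G (rowLab lab i) (out i) (T i) κ _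
      _ = PP G lab out i' i := rfl
  rw [h1]
  refine h2.trans (Nat.mul_le_mul_left _ ?_)
  rw [h3, sum_comm]
  exact sum_le_sum fun i' _ => sum_le_sum fun i _ => h4 i i'

theorem NN_eq (i : Fin n) : NN G (rowLab lab i) (out i) ∅ = PP G lab out i i := by
  unfold NN PP
  rw [sum_comm]

theorem rows_bound
    (hH : ∀ (r : Fin n) (v : V) (i i' j j' : Fin n), i ≠ i' → j ≠ j' →
      ¬ (G.cnt {v} (start (rowLab lab r) j) (out r i) = 0 ∧
        G.cnt {v} (start (rowLab lab r) j') (out r i) = 0 ∧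
        G.cnt {v} (start (rowLab lab r) j) (out r i') = 0 ∧
        G.cnt {v} (start (rowLab lab r) j') (out r i') = 0))
    (hconn : ∀ r i j, G.cnt ∅ (start (rowLab lab r) j) (out r i) ≠ 0) (κ : ℕ) (hκ : 1 ≤ κ) :
    ∃ f : ℝ, 0 ≤ f ∧ f ^ 2 ≤ G.E.card * ((∑ i', ∑ i, PP G lab out i' i : ℕ) : ℝ) ∧
      2 * (n : ℝ) ^ 3 ≤ (1 + 2 / √κ) * ((∑ i, PP G lab out i i : ℕ) : ℝ) +
        (κ * Fintype.card V + (κ : ℝ) ^ 2 * f + κ * n ^ 2) := by
  classical
  have h1 : ∀ r : Fin n, ∃ T' : Finset V, 2 * (n : ℝ) ^ 2 ≤ (1 + 2 / √κ) * PP G lab out r r +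
      (κ * (univ.filter fun v => rowLab lab r v ≠ none).card +
        (κ : ℝ) ^ 2 * (FF G (rowLab lab r) (out r) T' κ).card + κ * n) := by
    intro r
    rw [← NN_eq]
    exact paths_bound' G (rowLab lab r) (out r) (hH r) (hconn r) κ hκ
  choose T hT using h1
  refine ⟨((∑ i, (FF G (rowLab lab i) (out i) (T i) κ).card : ℕ) : ℝ), by positivity, ?_, ?_⟩
  · exact_mod_cast sum_edges G lab out T κ
  · have h2 := sum_le_sum fun r (_ : r ∈ (univ : Finset (Fin n))) => hT r
    have h3 : ∑ _r : Fin n, 2 * (n : ℝ) ^ 2 = 2 * (n : ℝ) ^ 3 := by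
      rw [sum_const, card_univ, Fintype.card_fin, nsmul_eq_mul]; ring
    rw [h3] at h2
    have h4 : ∑ r : Fin n, ((1 + 2 / √(κ : ℝ)) * (PP G lab out r r : ℝ) +
      (κ * ((univ.filter fun v => rowLab lab r v ≠ none).card : ℝ) +
        (κ : ℝ) ^ 2 * ((FF G (rowLab lab r) (out r) (T r) κ).card : ℝ) + κ * n)) =
        (1 + 2 / √κ) * ((∑ i, PP G lab out i i : ℕ) : ℝ) +
        (κ * ((∑ r, (univ.filter fun v => rowLab lab r v ≠ none).card : ℕ) : ℝ) + (κ : ℝ) ^ 2 *
          ((∑ i, (FF G (rowLab lab i) (out i) (T i) κ).card : ℕ) : ℝ) + κ * n ^ 2) := by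
      rw [sum_add_distrib, sum_add_distrib, sum_add_distrib, ← mul_sum, ← mul_sum, ← mul_sum]
      push_cast
      rw [sum_const, card_univ, Fintype.card_fin, nsmul_eq_mul]
      ring
    rw [h4] at h2
    have h5 : ((∑ r, (univ.filter fun v => rowLab lab r v ≠ none).card : ℕ) : ℝ) ≤
        Fintype.card V := by exact_mod_cast sum_labels lab
    have h6 : (κ : ℝ) * ((∑ r, (univ.filter fun v => rowLab lab r v ≠ none).card : ℕ) : ℝ) ≤
        κ * Fintype.card V := by gcongr
    linarith

end Pool.Agent.H682R3.Few
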