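import Pool.Agent.H682R3.Few.Tradeoff

/-! # The school algorithm -/

namespace Pool.Agent.H682R3.Few

open Finset

/-- Indicator of the nodes carrying the variable `a_{ij}`. -/
def startA {F : Type} [Field F] {n : ℕ} (C : ACircuit F n) (i j : Fin n) : C.V → ℕ :=
  fun v => if C.label v = some (Sum.inl (i, j)) then 1 else 0

theorem startA_eq {F : Type} [Field F] {n : ℕ} (C : ACircuit F n) (i j : Fin n) :
    start (rowLab (labA C) i) j = startA C i j := by
  funext v
  unfold start startA
  have : (rowLab (labA C) i v = some j) = (C.label v = some (Sum.inl (i, j))) := by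
    rw [eq_iff_iff, rowLab_eq, labA_eq]
  simp only [this]

/-- nodes: the variables, the products `a_{ij} b_{jk}`, the outputs -/
abbrev SV (n : ℕ) : Type := (Vars n ⊕ (Fin n × Fin n × Fin n)) ⊕ (Fin n × Fin n)

instance instDecSV (n : ℕ) : DecidableEq (SV n) := inferInstance

instance instDecSV2 (n : ℕ) : DecidableEq (SV n × SV n) := inferInstance

/-- the edges of the school algorithm -/
def sE (n : ℕ) : Finset (SV n × SV n) :=
  ((univ : Finset (Fin n × Fin n × Fin n)).image fun p =>
      (Sum.inl (Sum.inl (Sum.inl (p.1, p.2.1))), Sum.inl (Sum.inr p))) ∪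
  (((univ : Finset (Fin n × Fin n × Fin n)).image fun p =>
      (Sum.inl (Sum.inl (Sum.inr (p.2.1, p.2.2))), Sum.inl (Sum.inr p))) ∪
  ((univ : Finset (Fin n × Fin n × Fin n)).image fun p =>
      (Sum.inl (Sum.inr p), Sum.inr (p.1, p.2.2))))

/-- the rank -/
def srank (n : ℕ) : SV n → ℕ := fun v => match v with
    | Sum.inl (Sum.inl _) => 0
    | Sum.inl (Sum.inr _) => 1
    | Sum.inr _ => 2

theorem sacyclic (n : ℕ) (u v : SV n) (h : (u, v) ∈ sE n) : srank n u < srank n v := by
  simp only [sE, mem_union, mem_image, mem_univ, true_and, Prod.mk.injEq] at h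
  rcases h with ⟨p, rfl, rfl⟩ | ⟨p, rfl, rfl⟩ | ⟨p, rfl, rfl⟩ <;> simp [srank]

/-- the graph -/
def sDag (n : ℕ) : Dag (SV n) := ⟨sE n, srank n, sacyclic n⟩

/-- the labels -/
def slabel (n : ℕ) : SV n → Option (Vars n) := fun v => match v with
    | Sum.inl (Sum.inl x) => some x
    | _ => none

/-- the values -/
noncomputable def sval (F : Type) [Field F] (n : ℕ) : SV n → MvPolynomial (Vars n) F :=
  fun v => match v with
    | Sum.inl (Sum.inl x) => MvPolynomial.X x
    | Sum.inl (Sum.inr p) =>
        MvPolynomial.X (Sum.inl (p.1, p.2.1)) * MvPolynomial.X (Sum.inr (p.2.1, p.2.2))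
    | Sum.inr q => ∑ j, MvPolynomial.X (Sum.inl (q.1, j)) * MvPolynomial.X (Sum.inr (j, q.2))

/-- the school algorithm -/
noncomputable def school (F : Type) [Field F] (n : ℕ) : ACircuit F n where
  V := SV n
  G := sDag n
  label := slabel n
  val := sval F n
  val_input := by
    rintro ((x | p) | q) y h
    · simp only [slabel, Option.some.injEq] at h
      rw [h]
      rfl
    · simp [slabel] at h
    · simp [slabel] at h
  val_gate := by
    rintro ((x | p) | q) h
    · simp [slabel] at h
    · show MvPolynomial.X (Sum.inl (p.1, p.2.1)) * MvPolynomial.X (Sum.inr (p.2.1, p.2.2)) ∈ _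
      refine Subalgebra.mul_mem _ (Algebra.subset_adjoin ?_) (Algebra.subset_adjoin ?_)
      · refine ⟨Sum.inl (Sum.inl (Sum.inl (p.1, p.2.1))), ?_, rfl⟩
        show (_, _) ∈ sE n
        exact mem_union_left _ (mem_image.mpr ⟨p, mem_univ _, rfl⟩)
      · refine ⟨Sum.inl (Sum.inl (Sum.inr (p.2.1, p.2.2))), ?_, rfl⟩
        show (_, _) ∈ sE n
        exact mem_union_right _ (mem_union_left _ (mem_image.mpr ⟨p, mem_univ _, rfl⟩))
    · show ∑ j, MvPolynomial.X (Sum.inl (q.1, j)) * MvPolynomial.X (Sum.inr (j, q.2)) ∈ _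
      refine Subalgebra.sum_mem _ fun j _ => Algebra.subset_adjoin ?_
      refine ⟨Sum.inl (Sum.inr (q.1, j, q.2)), ?_, rfl⟩
      show (_, _) ∈ sE n
      exact mem_union_right _ (mem_union_right _ (mem_image.mpr ⟨(q.1, j, q.2), mem_univ _, rfl⟩))
  out := fun i k => Sum.inr (i, k)

/-- the number of paths from `a_{ij}` -/
def spaths (n : ℕ) (i j : Fin n) : SV n → ℕ := fun v => match v with
    | Sum.inl (Sum.inl x) => if x = Sum.inl (i, j) then 1 else 0
    | Sum.inl (Sum.inr p) => if (p.1, p.2.1) = (i, j) then 1 else 0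
    | Sum.inr q => if q.1 = i then 1 else 0

theorem school_count (F : Type) [Field F] (n : ℕ) (i j : Fin n) :
    (sDag n).IsCount ∅ (fun v => if slabel n v = some (Sum.inl (i, j)) then 1 else 0)
      (spaths n i j) := by
  rintro ((x | p) | q)
  · rw [if_neg (notMem_empty _)]
    have : univ.filter (fun u : SV n => (u, (Sum.inl (Sum.inl x) : SV n)) ∈ (sDag n).E) = ∅ := by
      ext u; simp [sDag, sE]
    rw [this]
    simp [spaths, slabel]
  · rw [if_neg (notMem_empty _)]
    have : univ.filter (fun u : SV n => (u, (Sum.inl (Sum.inr p) : SV n)) ∈ (sDag n).E) =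
        {Sum.inl (Sum.inl (Sum.inl (p.1, p.2.1))), Sum.inl (Sum.inl (Sum.inr (p.2.1, p.2.2)))} := by
      ext u
      simp only [sDag, sE, mem_filter, mem_univ, true_and, mem_union, mem_image, Prod.mk.injEq,
        mem_insert, mem_singleton, Sum.inl.injEq, Sum.inr.injEq]
      constructor
      · rintro (⟨a, h1, h2⟩ | ⟨a, h1, h2⟩ | ⟨a, h1, h2⟩)
        · left; rw [← h1, h2]
        · right; rw [← h1, h2]
        · exact absurd h2 (by simp)
      · rintro (h | h)
        · left; exact ⟨p, h.symm, rfl⟩
        · right; left; exact ⟨p, h.symm, rfl⟩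
    rw [this, sum_pair (by simp)]
    simp [spaths, slabel]
  · rw [if_neg (notMem_empty _)]
    have : univ.filter (fun u : SV n => (u, (Sum.inr q : SV n)) ∈ (sDag n).E) =
        univ.image (fun l : Fin n => (Sum.inl (Sum.inr (q.1, l, q.2)) : SV n)) := by
      ext u
      simp only [sDag, sE, mem_filter, mem_univ, true_and, mem_union, mem_image, Prod.mk.injEq,
        Sum.inr.injEq]
      constructor
      · rintro (⟨a, h1, h2⟩ | ⟨a, h1, h2⟩ | ⟨a, h1, h2⟩)
        · exact absurd h2 (by simp)
        · exact absurd h2 (by simp)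
        · exact ⟨a.2.1, by rw [← h1, ← h2]⟩
      · rintro ⟨l, h⟩
        right; right
        exact ⟨(q.1, l, q.2), h, rfl⟩
    rw [this, sum_image (fun x _ y _ h => by simpa using h)]
    simp only [spaths, slabel, reduceCtorEq, if_false, zero_add, Prod.mk.injEq]
    by_cases hq : q.1 = i
    · simp [hq]
    · simp [hq]

theorem school_size (F : Type) [Field F] (n : ℕ) :
    Fintype.card (school F n).V + (school F n).G.E.card ≤ 7 * n ^ 3 := by
  have h1 : Fintype.card (SV n) = 3 * n ^ 2 + n ^ 3 := by
    simp [SV, Vars]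
    ring
  have h2 : (sE n).card ≤ 3 * n ^ 3 := by
    unfold sE
    have hc : (univ : Finset (Fin n × Fin n × Fin n)).card = n ^ 3 := by
      simp
      ring
    refine (card_union_le _ _).trans ?_
    have a := card_image_le (s := (univ : Finset (Fin n × Fin n × Fin n)))
      (f := fun p => ((Sum.inl (Sum.inl (Sum.inl (p.1, p.2.1))) : SV n),
        (Sum.inl (Sum.inr p) : SV n)))
    have b := card_image_le (s := (univ : Finset (Fin n × Fin n × Fin n)))
      (f := fun p => ((Sum.inl (Sum.inl (Sum.inr (p.2.1, p.2.2))) : SV n),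
        (Sum.inl (Sum.inr p) : SV n)))
    have c := card_image_le (s := (univ : Finset (Fin n × Fin n × Fin n)))
      (f := fun p => ((Sum.inl (Sum.inr p) : SV n), (Sum.inr (p.1, p.2.2) : SV n)))
    have d := card_union_le ((univ : Finset (Fin n × Fin n × Fin n)).image
      fun p => ((Sum.inl (Sum.inl (Sum.inr (p.2.1, p.2.2))) : SV n), (Sum.inl (Sum.inr p) : SV n)))
      ((univ : Finset (Fin n × Fin n × Fin n)).image fun p =>
        ((Sum.inl (Sum.inr p) : SV n), (Sum.inr (p.1, p.2.2) : SV n)))
    rw [hc] at a b c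
    omega
  have h3 : Fintype.card (school F n).V + (school F n).G.E.card =
      Fintype.card (SV n) + (sE n).card := rfl
  have h4 : n ^ 2 ≤ n ^ 3 := by
    rcases Nat.eq_zero_or_pos n with h | h
    · subst h; simp
    · exact Nat.pow_le_pow_right h (by norm_num)
  rw [h3, h1]
  omega

end Pool.Agent.H682R3.Few
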