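import Pool.Agent.H682R3.Few.MatMul

/-! # The tradeoff size times paths -/

namespace Pool.Agent.H682R3.Few

open Finset

section graph

variable {V : Type} [Fintype V] [DecidableEq V] (G : Dag V) {n : ℕ}
  (lab : V → Option (Fin n × Fin n)) (out : Fin n → Fin n → V)

theorem card_ge_sq (hconn : ∀ r i j, G.cnt ∅ (start (rowLab lab r) j) (out r i) ≠ 0) :
    n ^ 2 ≤ Fintype.card V := by
  classical
  have h1 : ∀ p : Fin n × Fin n, ∃ s, lab s = some p := by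
    rintro ⟨i, j⟩
    obtain ⟨s, hs⟩ := exists_source G (rowLab lab i) j (out i j) (hconn i j j)
    exact ⟨s, (rowLab_eq lab i j s).mp hs⟩
  choose s hs using h1
  have hinj : Function.Injective s := by
    intro a b hab
    have := hs a
    rw [hab, hs b] at this
    exact (Option.some.inj this).symm
  have := Fintype.card_le_of_injective s hinj
  rw [Fintype.card_prod, Fintype.card_fin] at this
  rw [sq]
  exact this

theorem PP_ge (hconn : ∀ r i j, G.cnt ∅ (start (rowLab lab r) j) (out r i) ≠ 0) :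
    n ^ 3 ≤ ∑ i', ∑ i, PP G lab out i' i := by
  calc n ^ 3 = ∑ _i' : Fin n, n ^ 2 := by simp; ring
    _ ≤ ∑ i', PP G lab out i' i' := by
        refine sum_le_sum fun i _ => ?_
        calc n ^ 2 = ∑ _j : Fin n, ∑ _k : Fin n, 1 := by simp; ring
          _ ≤ PP G lab out i i := by
            unfold PP
            exact sum_le_sum fun j _ => sum_le_sum fun k _ =>
              Nat.one_le_iff_ne_zero.mpr (hconn i k j)
    _ ≤ ∑ i', ∑ i, PP G lab out i' i := by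
        refine sum_le_sum fun i' _ => ?_
        exact single_le_sum (f := fun i => PP G lab out i' i) (fun _ _ => Nat.zero_le _)
          (mem_univ i')

theorem tradeoff
    (hH : ∀ (r : Fin n) (v : V) (i i' j j' : Fin n), i ≠ i' → j ≠ j' →
      ¬ (G.cnt {v} (start (rowLab lab r) j) (out r i) = 0 ∧
        G.cnt {v} (start (rowLab lab r) j') (out r i) = 0 ∧
        G.cnt {v} (start (rowLab lab r) j) (out r i') = 0 ∧
        G.cnt {v} (start (rowLab lab r) j') (out r i') = 0))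
    (hconn : ∀ r i j, G.cnt ∅ (start (rowLab lab r) j) (out r i) ≠ 0)
    (δ : ℝ) (hδ : 0 < δ) (hδ2 : δ ≤ 2)
    (hN : ((∑ i, PP G lab out i i : ℕ) : ℝ) ≤ (2 - δ) * (n : ℝ) ^ 3) :
    δ ^ 10 * (n : ℝ) ^ 6 / (4 * 10 ^ 8) ≤
      (Fintype.card V + G.E.card) * ((∑ i', ∑ i, PP G lab out i' i : ℕ) : ℝ) := by
  obtain ⟨κ, hκ1, hκ2⟩ : ∃ κ : ℕ, 64 / δ ^ 2 ≤ κ ∧ (κ : ℝ) ≤ 64 / δ ^ 2 + 1 :=
    ⟨⌈64 / δ ^ 2⌉₊, Nat.le_ceil _, (Nat.ceil_lt_add_one (by positivity)).le⟩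
  have hκpos : (0 : ℝ) < κ := lt_of_lt_of_le (by positivity) hκ1
  have hκ : 1 ≤ κ := by
    have : 0 < κ := by exact_mod_cast hκpos
    omega
  have hκr : (1 : ℝ) ≤ κ := by exact_mod_cast hκ
  obtain ⟨f, hf0, hf, h⟩ := rows_bound G lab out hH hconn κ hκ
  have hq : 2 / √(κ : ℝ) ≤ δ / 4 := by
    rw [div_le_iff₀ (Real.sqrt_pos.mpr hκpos)]
    have h1 : 8 / δ ≤ √(κ : ℝ) := by
      refine Real.le_sqrt_of_sq_le ?_
      rw [div_pow]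
      norm_num
      exact hκ1
    calc (2 : ℝ) = δ / 4 * (8 / δ) := by field_simp; norm_num
      _ ≤ δ / 4 * √(κ : ℝ) := by gcongr
  have hV : ((n : ℝ)) ^ 2 ≤ Fintype.card V := by exact_mod_cast card_ge_sq G lab out hconn
  have hP : ((n : ℝ)) ^ 3 ≤ ((∑ i', ∑ i, PP G lab out i' i : ℕ) : ℝ) := by
    exact_mod_cast PP_ge G lab out hconn
  set P : ℝ := ((∑ i', ∑ i, PP G lab out i' i : ℕ) : ℝ) with hPdef
  set Ps : ℝ := ((∑ i, PP G lab out i i : ℕ) : ℝ) with hPs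
  have hPs0 : 0 ≤ Ps := by positivity
  have hE0 : (0 : ℝ) ≤ G.E.card := by positivity
  have hV0 : (0 : ℝ) ≤ Fintype.card V := by positivity
  set S : ℝ := (Fintype.card V : ℝ) + G.E.card with hS
  have hS0 : 0 ≤ S := by positivity
  have hn0 : (0 : ℝ) ≤ (n : ℝ) := by positivity
  have hn3 : (0 : ℝ) ≤ (n : ℝ) ^ 3 := by positivity
  have h1 : (1 + 2 / √(κ : ℝ)) * Ps ≤ (2 - δ / 2) * (n : ℝ) ^ 3 := by
    calc (1 + 2 / √(κ : ℝ)) * Ps ≤ (1 + δ / 4) * ((2 - δ) * (n : ℝ) ^ 3) := by gcongr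
      _ ≤ (2 - δ / 2) * (n : ℝ) ^ 3 := by
          have h0 : 0 ≤ δ ^ 2 * (n : ℝ) ^ 3 := by positivity
          nlinarith
  have h2 : κ * (Fintype.card V : ℝ) + κ * (n : ℝ) ^ 2 ≤ 2 * κ * S := by
    have h3 : (κ : ℝ) * (n : ℝ) ^ 2 ≤ κ * Fintype.card V := by gcongr
    have h4 : (κ : ℝ) * Fintype.card V ≤ κ * S := by
      have : (Fintype.card V : ℝ) ≤ S := by rw [hS]; linarith
      gcongr
    linarith
  have h3 : δ / 2 * (n : ℝ) ^ 3 ≤ 2 * κ * S + (κ : ℝ) ^ 2 * f := by linarith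
  have h4 : (κ : ℝ) ≤ 68 / δ ^ 2 := by
    refine hκ2.trans ?_
    have h5 : (1 : ℝ) ≤ 4 / δ ^ 2 := by
      rw [le_div_iff₀ (by positivity)]
      nlinarith
    calc 64 / δ ^ 2 + 1 ≤ 64 / δ ^ 2 + 4 / δ ^ 2 := by linarith
      _ = 68 / δ ^ 2 := by ring
  have hδ7 : δ ^ 7 ≤ 128 := by
    calc δ ^ 7 ≤ 2 ^ 7 := by gcongr
      _ = 128 := by norm_num
  have hn6 : (0 : ℝ) ≤ (n : ℝ) ^ 6 := by positivity
  have hP0 : 0 ≤ P := by positivity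
  by_cases hcase : δ / 4 * (n : ℝ) ^ 3 ≤ 2 * κ * S
  · -- large size
    have h5 : δ / 4 * (n : ℝ) ^ 3 ≤ 2 * (68 / δ ^ 2) * S := hcase.trans (by gcongr)
    have h6 : δ ^ 3 * (n : ℝ) ^ 3 / 544 ≤ S := by
      have h7 : δ ^ 2 * (δ / 4 * (n : ℝ) ^ 3) ≤ δ ^ 2 * (2 * (68 / δ ^ 2) * S) := by gcongr
      have h8 : δ ^ 2 * (2 * (68 / δ ^ 2) * S) = 136 * S := by field_simp; ring
      rw [h8] at h7
      have h9 : δ ^ 2 * (δ / 4 * (n : ℝ) ^ 3) = δ ^ 3 * (n : ℝ) ^ 3 / 4 := by ring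
      rw [h9] at h7
      linarith
    have h10 : δ ^ 3 * (n : ℝ) ^ 3 / 544 * (n : ℝ) ^ 3 ≤ S * P := by
      gcongr
    have h11 : δ ^ 3 * (n : ℝ) ^ 3 / 544 * (n : ℝ) ^ 3 = δ ^ 3 * (n : ℝ) ^ 6 / 544 := by ring
    rw [h11] at h10
    refine le_trans ?_ h10
    have h12 : δ ^ 10 * (n : ℝ) ^ 6 = δ ^ 7 * (δ ^ 3 * (n : ℝ) ^ 6) := by ring
    have h13 : δ ^ 7 * (δ ^ 3 * (n : ℝ) ^ 6) ≤ 128 * (δ ^ 3 * (n : ℝ) ^ 6) := by gcongr
    have h14 : 0 ≤ δ ^ 3 * (n : ℝ) ^ 6 := by positivity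
    rw [h12]
    rw [div_le_div_iff₀ (by norm_num) (by norm_num)]
    nlinarith
  · push Not at hcase
    have h5 : δ / 4 * (n : ℝ) ^ 3 ≤ (κ : ℝ) ^ 2 * f := by linarith
    have h6 : (δ / 4 * (n : ℝ) ^ 3) ^ 2 ≤ ((κ : ℝ) ^ 2 * f) ^ 2 := by gcongr
    have h7 : ((κ : ℝ) ^ 2 * f) ^ 2 ≤ (68 / δ ^ 2) ^ 4 * (S * P) := by
      have h8 : ((κ : ℝ) ^ 2 * f) ^ 2 = (κ : ℝ) ^ 4 * f ^ 2 := by ring
      rw [h8]
      have h9 : f ^ 2 ≤ S * P := hf.trans (by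
        have : (G.E.card : ℝ) ≤ S := by rw [hS]; linarith
        gcongr)
      gcongr
    have h8 : (δ / 4 * (n : ℝ) ^ 3) ^ 2 = δ ^ 2 * (n : ℝ) ^ 6 / 16 := by ring
    rw [h8] at h6
    have h9 : δ ^ 2 * (n : ℝ) ^ 6 / 16 ≤ (68 / δ ^ 2) ^ 4 * (S * P) := h6.trans h7
    have h10 : δ ^ 8 * (δ ^ 2 * (n : ℝ) ^ 6 / 16) ≤ δ ^ 8 * ((68 / δ ^ 2) ^ 4 * (S * P)) := by
      gcongr
    have h11 : δ ^ 8 * ((68 / δ ^ 2) ^ 4 * (S * P)) = 21381376 * (S * P) := by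
      field_simp
      norm_num
      ring
    have h12 : δ ^ 8 * (δ ^ 2 * (n : ℝ) ^ 6 / 16) = δ ^ 10 * (n : ℝ) ^ 6 / 16 := by ring
    rw [h11, h12] at h10
    have h13 : 0 ≤ S * P := by positivity
    rw [div_le_iff₀ (by norm_num)]
    linarith

end graph

theorem mm_tradeoff {F : Type} [Field F] {n : ℕ} (C : ACircuit F n) (hC : C.ComputesMM)
    (δ : ℝ) (hδ : 0 < δ) (hδ2 : δ ≤ 2)
    (hN : ((∑ i, PP C.G (labA C) C.out i i : ℕ) : ℝ) ≤ (2 - δ) * (n : ℝ) ^ 3) :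
    δ ^ 10 * (n : ℝ) ^ 6 / (4 * 10 ^ 8) ≤
      (Fintype.card C.V + C.G.E.card) * ((∑ i', ∑ i, PP C.G (labA C) C.out i' i : ℕ) : ℝ) :=
  tradeoff C.G (labA C) C.out
    (fun r v i i' j j' hi hj => mm_sep C hC r v i i' j j' hi hj)
    (fun r i j => mm_conn C hC r i j) δ hδ hδ2 hN

end Pool.Agent.H682R3.Few
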